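import Mathlib

set_option autoImplicit false
set_option maxHeartbeats 4000000
set_option linter.unusedSimpArgs false
set_option linter.unusedTactic false
set_option linter.unreachableTactic false
set_option linter.style.multiGoal false

/-!
# The cookie game: Grundy values of positions with distinct heaps

A position with distinct positive heaps is read from the largest size down.  The state is a pair
`(q, f)`, it only changes at the missing sizes, by `stp`.
-/

namespace Pool.Agent.R154.Cookie

/-- The change of the state at the missing size `t`. -/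
def stp (t : ℕ) (s : ℕ × ℕ) : ℕ × ℕ :=
  if 3 * t + s.2 ≤ s.1 then s
  else if 3 * t + 6 ≤ 2 * s.1 then (s.1 - 3, s.2)
  else if 3 * t + 3 ≤ 2 * s.1 then (s.1 - 3, 0)
  else if 3 * t + 2 = 2 * s.1 then (s.1 - 1, 1)
  else (s.1 - 1, 0)

/-- The Grundy value of a final state. -/
def val : ℕ × ℕ → ℕ
  | (q, 0) => q % 3 + q % 6 / 5
  | (q, _) => 3 - q % 6 / 3

lemma val_zero (q : ℕ) : val (q, 0) = q % 3 + q % 6 / 5 := rfl
lemma val_one (q : ℕ) : val (q, 1) = 3 - q % 6 / 3 := rfl

lemma stp_cases (t q f : ℕ) :
    (3 * t + f ≤ q ∧ stp t (q, f) = (q, f)) ∨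
    (q < 3 * t + f ∧ 3 * t + 6 ≤ 2 * q ∧ stp t (q, f) = (q - 3, f)) ∨
    (q < 3 * t + f ∧ 3 * t + 3 ≤ 2 * q ∧ 2 * q < 3 * t + 6 ∧ stp t (q, f) = (q - 3, 0)) ∨
    (q < 3 * t + f ∧ 3 * t + 2 = 2 * q ∧ stp t (q, f) = (q - 1, 1)) ∨
    (q < 3 * t + f ∧ 2 * q < 3 * t + 2 ∧ stp t (q, f) = (q - 1, 0)) := by
  unfold stp
  simp only
  split_ifs with h1 h2 h3 h4
  · left; exact ⟨h1, rfl⟩
  · right; left; exact ⟨by omega, h2, rfl⟩
  · right; right; left; exact ⟨by omega, h3, by omega, rfl⟩
  · right; right; right; left; exact ⟨by omega, h4, rfl⟩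
  · right; right; right; right; exact ⟨by omega, by omega, rfl⟩

/-- Basic facts on the state at level `t`. -/
def W (t : ℕ) (s : ℕ × ℕ) : Prop :=
  t ≤ s.1 ∧ (s.2 = 0 ∨ (s.2 = 1 ∧ s.1 % 3 = 0 ∧ 3 * t + 3 ≤ 2 * s.1))

/-- The pairs of states (position at level `t + 1`, shifted position at level `t`). -/
def R0 (t : ℕ) (s z : ℕ × ℕ) : Prop :=
  W (t + 1) s ∧ W t z ∧
  ((s.1 < 3 * t + 3 + s.2 ∧ z.1 < 3 * t + z.2 ∧ s.2 = 0 ∧ z.1 + 1 = s.1 ∧
      (z.2 = 0 ∨ s.1 % 3 = 1)) ∨
   (s.1 < 3 * t + 3 + s.2 ∧ z.1 < 3 * t + z.2 ∧ s.2 = 1 ∧ z.2 = 0 ∧ z.1 + 3 = s.1) ∨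
   (3 * t + z.2 ≤ z.1 ∧ s.2 = 0 ∧ s.1 = 3 * t + 2 ∧ val z = 1) ∨
   (3 * t + z.2 ≤ z.1 ∧ s.2 = 0 ∧ s.1 = 3 * t + 1 ∧ val z = 0) ∨
   (3 * t + z.2 ≤ z.1 ∧ s.2 = 1 ∧ s.1 = 3 * t + 3 ∧ val z = 0) ∨
   (3 * t + z.2 ≤ z.1 ∧ 3 * t + 3 + s.2 ≤ s.1 ∧ val s ≠ val z))

/-- The pairs of states after one heap has been removed. -/
def R1 (t : ℕ) (s z : ℕ × ℕ) : Prop :=
  W (t + 1) s ∧ W t z ∧
  ((s.1 < 3 * t + 3 + s.2 ∧ z.1 < 3 * t + z.2 ∧ s.2 = 0 ∧ z.2 = 0 ∧ z.1 + 2 = s.1) ∨
   (s.1 < 3 * t + 3 + s.2 ∧ z.1 < 3 * t + z.2 ∧ s.2 = 0 ∧ z.2 = 0 ∧ z.1 + 4 = s.1 ∧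
      3 * t + 8 ≤ 2 * s.1) ∨
   (s.1 < 3 * t + 3 + s.2 ∧ z.1 < 3 * t + z.2 ∧ s.2 = 0 ∧ z.2 = 1 ∧ z.1 = s.1 ∧ s.1 % 3 = 0 ∧
      3 * t + 3 ≤ 2 * s.1) ∨
   (s.1 < 3 * t + 3 + s.2 ∧ z.1 < 3 * t + z.2 ∧ s.2 = 0 ∧ z.2 = 1 ∧ z.1 + 2 = s.1 ∧
      3 * t + 7 ≤ 2 * s.1) ∨
   (s.1 < 3 * t + 3 + s.2 ∧ z.1 < 3 * t + z.2 ∧ s.2 = 0 ∧ z.2 = 1 ∧ z.1 + 4 = s.1 ∧
      3 * t + 11 ≤ 2 * s.1) ∨
   (s.1 < 3 * t + 3 + s.2 ∧ z.1 < 3 * t + z.2 ∧ s.2 = 1 ∧ z.2 = 0 ∧ z.1 + 2 = s.1) ∨
   (s.1 < 3 * t + 3 + s.2 ∧ z.1 < 3 * t + z.2 ∧ s.2 = 1 ∧ z.2 = 0 ∧ z.1 + 4 = s.1 ∧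
      3 * t + 9 ≤ 2 * s.1) ∨
   (s.1 < 3 * t + 3 + s.2 ∧ z.1 < 3 * t + z.2 ∧ s.2 = 1 ∧ z.2 = 0 ∧ z.1 + 6 = s.1 ∧
      3 * t + 12 ≤ 2 * s.1) ∨
   (3 * t + z.2 ≤ z.1 ∧ s.2 = 0 ∧ s.1 = 3 * t + 2 ∧ val z = 0) ∨
   (3 * t + z.2 ≤ z.1 ∧ s.2 = 1 ∧ s.1 = 3 * t + 3 ∧ val z = 1) ∨
   (3 * t + 3 + s.2 ≤ s.1 ∧ z.2 = 0 ∧ z.1 + 1 = 3 * t ∧ val s = 0) ∨
   (3 * t + 3 + s.2 ≤ s.1 ∧ z.2 = 1 ∧ z.1 = 3 * t ∧ 1 ≤ t ∧ val s = 1) ∨
   (3 * t + z.2 ≤ z.1 ∧ 3 * t + 3 + s.2 ≤ s.1 ∧ val s ≠ val z))

lemma R0_base (t : ℕ) : R0 t (t + 1, 0) (t, 0) := by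
  refine ⟨⟨le_rfl, Or.inl rfl⟩, ⟨le_rfl, Or.inl rfl⟩, ?_⟩
  simp only [val_zero, true_and, add_zero, and_true, true_or]
  omega

lemma R0_gap {t : ℕ} {s z : ℕ × ℕ} (h : R0 (t + 1) s z) : R0 t (stp (t + 2) s) (stp (t + 1) z) := by
  obtain ⟨q, f⟩ := s
  obtain ⟨p, g⟩ := z
  obtain ⟨⟨h1, h2⟩, ⟨h3, h4⟩, h5⟩ := h
  simp only at h1 h2 h3 h4 h5
  have ka := stp_cases (t + 2) q f
  have kb := stp_cases (t + 1) p g
  rcases h5 with c | c | c | c | c | c <;>
  rcases h2 with rfl | ⟨rfl, h2, h2'⟩ <;> rcases h4 with rfl | ⟨rfl, h4, h4'⟩ <;>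
  simp only [val_zero, val_one, true_and, and_true, false_and, and_false, true_or, or_true,
      false_or, or_false, add_zero, one_ne_zero, zero_ne_one] at c <;>
  rcases ka with ⟨a1, a⟩ | ⟨a1, a2, a⟩ | ⟨a1, a2, a3, a⟩ | ⟨a1, a2, a⟩ | ⟨a1, a2, a⟩ <;>
  try (exfalso; omega)
  all_goals
  rcases kb with ⟨b1, b⟩ | ⟨b1, b2, b⟩ | ⟨b1, b2, b3, b⟩ | ⟨b1, b2, b⟩ | ⟨b1, b2, b⟩ <;>
  try (exfalso; omega)
  all_goals rw [a, b]
  all_goals clear a b
  all_goals
    (refine ⟨⟨?_, ?_⟩, ⟨?_, ?_⟩, ?_⟩
     · simp only; omega
     · first | exact Or.inl rfl | exact Or.inr ⟨rfl, by omega, by omega⟩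
     · simp only; omega
     · first | exact Or.inl rfl | exact Or.inr ⟨rfl, by omega, by omega⟩
     · first
       | (refine Or.inl ?_; simp only [val_zero, val_one, true_and, and_true, false_and, and_false, true_or, or_true,
      false_or, or_false, add_zero, one_ne_zero, zero_ne_one] <;> omega)
       | (refine Or.inr (Or.inl ?_); simp only [val_zero, val_one, true_and, and_true, false_and, and_false, true_or, or_true,
      false_or, or_false, add_zero, one_ne_zero, zero_ne_one] <;> omega)
       | (refine Or.inr (Or.inr (Or.inl ?_)); simp only [val_zero, val_one, true_and, and_true, false_and, and_false, true_or, or_true,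
      false_or, or_false, add_zero, one_ne_zero, zero_ne_one] <;> omega)
       | (refine Or.inr (Or.inr (Or.inr (Or.inl ?_))); simp only [val_zero, val_one, true_and, and_true, false_and, and_false, true_or, or_true,
      false_or, or_false, add_zero, one_ne_zero, zero_ne_one] <;> omega)
       | (refine Or.inr (Or.inr (Or.inr (Or.inr (Or.inl ?_)))); simp only [val_zero, val_one, true_and, and_true, false_and, and_false, true_or, or_true,
      false_or, or_false, add_zero, one_ne_zero, zero_ne_one] <;> omega)
       | (refine Or.inr (Or.inr (Or.inr (Or.inr (Or.inr ?_)))); simp only [val_zero, val_one, true_and, and_true, false_and, and_false, true_or, or_true,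
      false_or, or_false, add_zero, one_ne_zero, zero_ne_one] <;> omega)
       | (rcases (by omega : q < 3 * t + 3 ∨ q = 3 * t + 3 ∨ q = 3 * t + 4 ∨ q = 3 * t + 5 ∨ q = 3 * t + 6 ∨ 3 * t + 6 < q) with e | e | e | e | e | e <;>
          rcases (by omega : p < 3 * t ∨ p = 3 * t ∨ p = 3 * t + 1 ∨ p = 3 * t + 2 ∨ p = 3 * t + 3 ∨ 3 * t + 3 < p) with e1 | e1 | e1 | e1 | e1 | e1 <;> first
          | (exfalso; omega)
          | (refine Or.inl ?_; simp only [val_zero, val_one, true_and, and_true, false_and, and_false, true_or, or_true,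
      false_or, or_false, add_zero, one_ne_zero, zero_ne_one] <;> omega)
          | (refine Or.inr (Or.inl ?_); simp only [val_zero, val_one, true_and, and_true, false_and, and_false, true_or, or_true,
      false_or, or_false, add_zero, one_ne_zero, zero_ne_one] <;> omega)
          | (refine Or.inr (Or.inr (Or.inl ?_)); simp only [val_zero, val_one, true_and, and_true, false_and, and_false, true_or, or_true,
      false_or, or_false, add_zero, one_ne_zero, zero_ne_one] <;> omega)
          | (refine Or.inr (Or.inr (Or.inr (Or.inl ?_))); simp only [val_zero, val_one, true_and, and_true, false_and, and_false, true_or, or_true,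
      false_or, or_false, add_zero, one_ne_zero, zero_ne_one] <;> omega)
          | (refine Or.inr (Or.inr (Or.inr (Or.inr (Or.inl ?_)))); simp only [val_zero, val_one, true_and, and_true, false_and, and_false, true_or, or_true,
      false_or, or_false, add_zero, one_ne_zero, zero_ne_one] <;> omega)
          | (refine Or.inr (Or.inr (Or.inr (Or.inr (Or.inr ?_)))); simp only [val_zero, val_one, true_and, and_true, false_and, and_false, true_or, or_true,
      false_or, or_false, add_zero, one_ne_zero, zero_ne_one] <;> omega)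
          | (refine Or.inr (Or.inr (Or.inr (Or.inr (Or.inr ?_)))); simp only [val_zero, val_one, true_and, and_true, false_and, and_false, true_or, or_true,
      false_or, or_false, add_zero, one_ne_zero, zero_ne_one]; rcases (by omega : q % 6 = 0 ∨ q % 6 = 1 ∨ q % 6 = 2 ∨ q % 6 = 3 ∨ q % 6 = 4 ∨ q % 6 = 5) with r | r | r | r | r | r <;> omega)))

lemma R0_elem {t : ℕ} {s z : ℕ × ℕ} (h : R0 (t + 1) s z) : R0 t s z := by
  obtain ⟨q, f⟩ := s
  obtain ⟨p, g⟩ := z
  obtain ⟨⟨h1, h2⟩, ⟨h3, h4⟩, h5⟩ := h
  simp only at h1 h2 h3 h4 h5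
  rcases h5 with c | c | c | c | c | c <;>
  rcases h2 with rfl | ⟨rfl, h2, h2'⟩ <;> rcases h4 with rfl | ⟨rfl, h4, h4'⟩ <;>
  simp only [val_zero, val_one, true_and, and_true, false_and, and_false, true_or, or_true,
      false_or, or_false, add_zero, one_ne_zero, zero_ne_one] at c <;>
  try (exfalso; omega)
  all_goals
    (refine ⟨⟨?_, ?_⟩, ⟨?_, ?_⟩, ?_⟩
     · simp only; omega
     · first | exact Or.inl rfl | exact Or.inr ⟨rfl, by omega, by omega⟩
     · simp only; omega
     · first | exact Or.inl rfl | exact Or.inr ⟨rfl, by omega, by omega⟩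
     · first
       | (refine Or.inl ?_; simp only [val_zero, val_one, true_and, and_true, false_and, and_false, true_or, or_true,
      false_or, or_false, add_zero, one_ne_zero, zero_ne_one] <;> omega)
       | (refine Or.inr (Or.inl ?_); simp only [val_zero, val_one, true_and, and_true, false_and, and_false, true_or, or_true,
      false_or, or_false, add_zero, one_ne_zero, zero_ne_one] <;> omega)
       | (refine Or.inr (Or.inr (Or.inl ?_)); simp only [val_zero, val_one, true_and, and_true, false_and, and_false, true_or, or_true,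
      false_or, or_false, add_zero, one_ne_zero, zero_ne_one] <;> omega)
       | (refine Or.inr (Or.inr (Or.inr (Or.inl ?_))); simp only [val_zero, val_one, true_and, and_true, false_and, and_false, true_or, or_true,
      false_or, or_false, add_zero, one_ne_zero, zero_ne_one] <;> omega)
       | (refine Or.inr (Or.inr (Or.inr (Or.inr (Or.inl ?_)))); simp only [val_zero, val_one, true_and, and_true, false_and, and_false, true_or, or_true,
      false_or, or_false, add_zero, one_ne_zero, zero_ne_one] <;> omega)
       | (refine Or.inr (Or.inr (Or.inr (Or.inr (Or.inr ?_)))); simp only [val_zero, val_one, true_and, and_true, false_and, and_false, true_or, or_true,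
      false_or, or_false, add_zero, one_ne_zero, zero_ne_one] <;> omega)
       | (rcases (by omega : q < 3 * t + 3 ∨ q = 3 * t + 3 ∨ q = 3 * t + 4 ∨ q = 3 * t + 5 ∨ q = 3 * t + 6 ∨ 3 * t + 6 < q) with e | e | e | e | e | e <;>
          rcases (by omega : p < 3 * t ∨ p = 3 * t ∨ p = 3 * t + 1 ∨ p = 3 * t + 2 ∨ p = 3 * t + 3 ∨ 3 * t + 3 < p) with e1 | e1 | e1 | e1 | e1 | e1 <;> first
          | (exfalso; omega)
          | (refine Or.inl ?_; simp only [val_zero, val_one, true_and, and_true, false_and, and_false, true_or, or_true,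
      false_or, or_false, add_zero, one_ne_zero, zero_ne_one] <;> omega)
          | (refine Or.inr (Or.inl ?_); simp only [val_zero, val_one, true_and, and_true, false_and, and_false, true_or, or_true,
      false_or, or_false, add_zero, one_ne_zero, zero_ne_one] <;> omega)
          | (refine Or.inr (Or.inr (Or.inl ?_)); simp only [val_zero, val_one, true_and, and_true, false_and, and_false, true_or, or_true,
      false_or, or_false, add_zero, one_ne_zero, zero_ne_one] <;> omega)
          | (refine Or.inr (Or.inr (Or.inr (Or.inl ?_))); simp only [val_zero, val_one, true_and, and_true, false_and, and_false, true_or, or_true,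
      false_or, or_false, add_zero, one_ne_zero, zero_ne_one] <;> omega)
          | (refine Or.inr (Or.inr (Or.inr (Or.inr (Or.inl ?_)))); simp only [val_zero, val_one, true_and, and_true, false_and, and_false, true_or, or_true,
      false_or, or_false, add_zero, one_ne_zero, zero_ne_one] <;> omega)
          | (refine Or.inr (Or.inr (Or.inr (Or.inr (Or.inr ?_)))); simp only [val_zero, val_one, true_and, and_true, false_and, and_false, true_or, or_true,
      false_or, or_false, add_zero, one_ne_zero, zero_ne_one] <;> omega)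
          | (refine Or.inr (Or.inr (Or.inr (Or.inr (Or.inr ?_)))); simp only [val_zero, val_one, true_and, and_true, false_and, and_false, true_or, or_true,
      false_or, or_false, add_zero, one_ne_zero, zero_ne_one]; rcases (by omega : q % 6 = 0 ∨ q % 6 = 1 ∨ q % 6 = 2 ∨ q % 6 = 3 ∨ q % 6 = 4 ∨ q % 6 = 5) with r | r | r | r | r | r <;> omega)))

lemma R0_rem {t : ℕ} {s z : ℕ × ℕ} (h : R0 (t + 1) s z) : R1 t s (stp (t + 1) z) := by
  obtain ⟨q, f⟩ := s
  obtain ⟨p, g⟩ := z
  obtain ⟨⟨h1, h2⟩, ⟨h3, h4⟩, h5⟩ := h
  simp only at h1 h2 h3 h4 h5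
  have kb := stp_cases (t + 1) p g
  rcases h5 with c | c | c | c | c | c <;>
  rcases h2 with rfl | ⟨rfl, h2, h2'⟩ <;> rcases h4 with rfl | ⟨rfl, h4, h4'⟩ <;>
  simp only [val_zero, val_one, true_and, and_true, false_and, and_false, true_or, or_true,
      false_or, or_false, add_zero, one_ne_zero, zero_ne_one] at c <;>
  rcases kb with ⟨b1, b⟩ | ⟨b1, b2, b⟩ | ⟨b1, b2, b3, b⟩ | ⟨b1, b2, b⟩ | ⟨b1, b2, b⟩ <;>
  try (exfalso; omega)
  all_goals rw [b]
  all_goals clear b
  all_goals
    (refine ⟨⟨?_, ?_⟩, ⟨?_, ?_⟩, ?_⟩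
     · simp only; omega
     · first | exact Or.inl rfl | exact Or.inr ⟨rfl, by omega, by omega⟩
     · simp only; omega
     · first | exact Or.inl rfl | exact Or.inr ⟨rfl, by omega, by omega⟩
     · first
       | (refine Or.inl ?_; simp only [val_zero, val_one, true_and, and_true, false_and, and_false, true_or, or_true,
      false_or, or_false, add_zero, one_ne_zero, zero_ne_one] <;> omega)
       | (refine Or.inr (Or.inl ?_); simp only [val_zero, val_one, true_and, and_true, false_and, and_false, true_or, or_true,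
      false_or, or_false, add_zero, one_ne_zero, zero_ne_one] <;> omega)
       | (refine Or.inr (Or.inr (Or.inl ?_)); simp only [val_zero, val_one, true_and, and_true, false_and, and_false, true_or, or_true,
      false_or, or_false, add_zero, one_ne_zero, zero_ne_one] <;> omega)
       | (refine Or.inr (Or.inr (Or.inr (Or.inl ?_))); simp only [val_zero, val_one, true_and, and_true, false_and, and_false, true_or, or_true,
      false_or, or_false, add_zero, one_ne_zero, zero_ne_one] <;> omega)
       | (refine Or.inr (Or.inr (Or.inr (Or.inr (Or.inl ?_)))); simp only [val_zero, val_one, true_and, and_true, false_and, and_false, true_or, or_true,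
      false_or, or_false, add_zero, one_ne_zero, zero_ne_one] <;> omega)
       | (refine Or.inr (Or.inr (Or.inr (Or.inr (Or.inr (Or.inl ?_))))); simp only [val_zero, val_one, true_and, and_true, false_and, and_false, true_or, or_true,
      false_or, or_false, add_zero, one_ne_zero, zero_ne_one] <;> omega)
       | (refine Or.inr (Or.inr (Or.inr (Or.inr (Or.inr (Or.inr (Or.inl ?_)))))); simp only [val_zero, val_one, true_and, and_true, false_and, and_false, true_or, or_true,
      false_or, or_false, add_zero, one_ne_zero, zero_ne_one] <;> omega)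
       | (refine Or.inr (Or.inr (Or.inr (Or.inr (Or.inr (Or.inr (Or.inr (Or.inl ?_))))))); simp only [val_zero, val_one, true_and, and_true, false_and, and_false, true_or, or_true,
      false_or, or_false, add_zero, one_ne_zero, zero_ne_one] <;> omega)
       | (refine Or.inr (Or.inr (Or.inr (Or.inr (Or.inr (Or.inr (Or.inr (Or.inr (Or.inl ?_)))))))); simp only [val_zero, val_one, true_and, and_true, false_and, and_false, true_or, or_true,
      false_or, or_false, add_zero, one_ne_zero, zero_ne_one] <;> omega)
       | (refine Or.inr (Or.inr (Or.inr (Or.inr (Or.inr (Or.inr (Or.inr (Or.inr (Or.inr (Or.inl ?_))))))))); simp only [val_zero, val_one, true_and, and_true, false_and, and_false, true_or, or_true,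
      false_or, or_false, add_zero, one_ne_zero, zero_ne_one] <;> omega)
       | (refine Or.inr (Or.inr (Or.inr (Or.inr (Or.inr (Or.inr (Or.inr (Or.inr (Or.inr (Or.inr (Or.inl ?_)))))))))); simp only [val_zero, val_one, true_and, and_true, false_and, and_false, true_or, or_true,
      false_or, or_false, add_zero, one_ne_zero, zero_ne_one] <;> omega)
       | (refine Or.inr (Or.inr (Or.inr (Or.inr (Or.inr (Or.inr (Or.inr (Or.inr (Or.inr (Or.inr (Or.inr (Or.inl ?_))))))))))); simp only [val_zero, val_one, true_and, and_true, false_and, and_false, true_or, or_true,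
      false_or, or_false, add_zero, one_ne_zero, zero_ne_one] <;> omega)
       | (refine Or.inr (Or.inr (Or.inr (Or.inr (Or.inr (Or.inr (Or.inr (Or.inr (Or.inr (Or.inr (Or.inr (Or.inr ?_))))))))))); simp only [val_zero, val_one, true_and, and_true, false_and, and_false, true_or, or_true,
      false_or, or_false, add_zero, one_ne_zero, zero_ne_one] <;> omega)
       | (rcases (by omega : q < 3 * t + 3 ∨ q = 3 * t + 3 ∨ q = 3 * t + 4 ∨ q = 3 * t + 5 ∨ q = 3 * t + 6 ∨ 3 * t + 6 < q) with e | e | e | e | e | e <;>
          rcases (by omega : p < 3 * t ∨ p = 3 * t ∨ p = 3 * t + 1 ∨ p = 3 * t + 2 ∨ p = 3 * t + 3 ∨ 3 * t + 3 < p) with e1 | e1 | e1 | e1 | e1 | e1 <;> first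
          | (exfalso; omega)
          | (refine Or.inl ?_; simp only [val_zero, val_one, true_and, and_true, false_and, and_false, true_or, or_true,
      false_or, or_false, add_zero, one_ne_zero, zero_ne_one] <;> omega)
          | (refine Or.inr (Or.inl ?_); simp only [val_zero, val_one, true_and, and_true, false_and, and_false, true_or, or_true,
      false_or, or_false, add_zero, one_ne_zero, zero_ne_one] <;> omega)
          | (refine Or.inr (Or.inr (Or.inl ?_)); simp only [val_zero, val_one, true_and, and_true, false_and, and_false, true_or, or_true,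
      false_or, or_false, add_zero, one_ne_zero, zero_ne_one] <;> omega)
          | (refine Or.inr (Or.inr (Or.inr (Or.inl ?_))); simp only [val_zero, val_one, true_and, and_true, false_and, and_false, true_or, or_true,
      false_or, or_false, add_zero, one_ne_zero, zero_ne_one] <;> omega)
          | (refine Or.inr (Or.inr (Or.inr (Or.inr (Or.inl ?_)))); simp only [val_zero, val_one, true_and, and_true, false_and, and_false, true_or, or_true,
      false_or, or_false, add_zero, one_ne_zero, zero_ne_one] <;> omega)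
          | (refine Or.inr (Or.inr (Or.inr (Or.inr (Or.inr (Or.inl ?_))))); simp only [val_zero, val_one, true_and, and_true, false_and, and_false, true_or, or_true,
      false_or, or_false, add_zero, one_ne_zero, zero_ne_one] <;> omega)
          | (refine Or.inr (Or.inr (Or.inr (Or.inr (Or.inr (Or.inr (Or.inl ?_)))))); simp only [val_zero, val_one, true_and, and_true, false_and, and_false, true_or, or_true,
      false_or, or_false, add_zero, one_ne_zero, zero_ne_one] <;> omega)
          | (refine Or.inr (Or.inr (Or.inr (Or.inr (Or.inr (Or.inr (Or.inr (Or.inl ?_))))))); simp only [val_zero, val_one, true_and, and_true, false_and, and_false, true_or, or_true,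
      false_or, or_false, add_zero, one_ne_zero, zero_ne_one] <;> omega)
          | (refine Or.inr (Or.inr (Or.inr (Or.inr (Or.inr (Or.inr (Or.inr (Or.inr (Or.inl ?_)))))))); simp only [val_zero, val_one, true_and, and_true, false_and, and_false, true_or, or_true,
      false_or, or_false, add_zero, one_ne_zero, zero_ne_one] <;> omega)
          | (refine Or.inr (Or.inr (Or.inr (Or.inr (Or.inr (Or.inr (Or.inr (Or.inr (Or.inr (Or.inl ?_))))))))); simp only [val_zero, val_one, true_and, and_true, false_and, and_false, true_or, or_true,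
      false_or, or_false, add_zero, one_ne_zero, zero_ne_one] <;> omega)
          | (refine Or.inr (Or.inr (Or.inr (Or.inr (Or.inr (Or.inr (Or.inr (Or.inr (Or.inr (Or.inr (Or.inl ?_)))))))))); simp only [val_zero, val_one, true_and, and_true, false_and, and_false, true_or, or_true,
      false_or, or_false, add_zero, one_ne_zero, zero_ne_one] <;> omega)
          | (refine Or.inr (Or.inr (Or.inr (Or.inr (Or.inr (Or.inr (Or.inr (Or.inr (Or.inr (Or.inr (Or.inr (Or.inl ?_))))))))))); simp only [val_zero, val_one, true_and, and_true, false_and, and_false, true_or, or_true,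
      false_or, or_false, add_zero, one_ne_zero, zero_ne_one] <;> omega)
          | (refine Or.inr (Or.inr (Or.inr (Or.inr (Or.inr (Or.inr (Or.inr (Or.inr (Or.inr (Or.inr (Or.inr (Or.inr ?_))))))))))); simp only [val_zero, val_one, true_and, and_true, false_and, and_false, true_or, or_true,
      false_or, or_false, add_zero, one_ne_zero, zero_ne_one] <;> omega)
          | (refine Or.inr (Or.inr (Or.inr (Or.inr (Or.inr (Or.inr (Or.inr (Or.inr (Or.inr (Or.inr (Or.inr (Or.inr ?_))))))))))); simp only [val_zero, val_one, true_and, and_true, false_and, and_false, true_or, or_true,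
      false_or, or_false, add_zero, one_ne_zero, zero_ne_one]; rcases (by omega : q % 6 = 0 ∨ q % 6 = 1 ∨ q % 6 = 2 ∨ q % 6 = 3 ∨ q % 6 = 4 ∨ q % 6 = 5) with r | r | r | r | r | r <;> omega)))

lemma R1_elem {t : ℕ} {s z : ℕ × ℕ} (h : R1 (t + 1) s z) : R1 t s z := by
  obtain ⟨q, f⟩ := s
  obtain ⟨p, g⟩ := z
  obtain ⟨⟨h1, h2⟩, ⟨h3, h4⟩, h5⟩ := h
  simp only at h1 h2 h3 h4 h5
  rcases h5 with c | c | c | c | c | c | c | c | c | c | c | c | c <;>
  rcases h2 with rfl | ⟨rfl, h2, h2'⟩ <;> rcases h4 with rfl | ⟨rfl, h4, h4'⟩ <;>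
  simp only [val_zero, val_one, true_and, and_true, false_and, and_false, true_or, or_true,
      false_or, or_false, add_zero, one_ne_zero, zero_ne_one] at c <;>
  try (exfalso; omega)
  all_goals
    (refine ⟨⟨?_, ?_⟩, ⟨?_, ?_⟩, ?_⟩
     · simp only; omega
     · first | exact Or.inl rfl | exact Or.inr ⟨rfl, by omega, by omega⟩
     · simp only; omega
     · first | exact Or.inl rfl | exact Or.inr ⟨rfl, by omega, by omega⟩
     · first
       | (refine Or.inl ?_; simp only [val_zero, val_one, true_and, and_true, false_and, and_false, true_or, or_true,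
      false_or, or_false, add_zero, one_ne_zero, zero_ne_one] <;> omega)
       | (refine Or.inr (Or.inl ?_); simp only [val_zero, val_one, true_and, and_true, false_and, and_false, true_or, or_true,
      false_or, or_false, add_zero, one_ne_zero, zero_ne_one] <;> omega)
       | (refine Or.inr (Or.inr (Or.inl ?_)); simp only [val_zero, val_one, true_and, and_true, false_and, and_false, true_or, or_true,
      false_or, or_false, add_zero, one_ne_zero, zero_ne_one] <;> omega)
       | (refine Or.inr (Or.inr (Or.inr (Or.inl ?_))); simp only [val_zero, val_one, true_and, and_true, false_and, and_false, true_or, or_true,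
      false_or, or_false, add_zero, one_ne_zero, zero_ne_one] <;> omega)
       | (refine Or.inr (Or.inr (Or.inr (Or.inr (Or.inl ?_)))); simp only [val_zero, val_one, true_and, and_true, false_and, and_false, true_or, or_true,
      false_or, or_false, add_zero, one_ne_zero, zero_ne_one] <;> omega)
       | (refine Or.inr (Or.inr (Or.inr (Or.inr (Or.inr (Or.inl ?_))))); simp only [val_zero, val_one, true_and, and_true, false_and, and_false, true_or, or_true,
      false_or, or_false, add_zero, one_ne_zero, zero_ne_one] <;> omega)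
       | (refine Or.inr (Or.inr (Or.inr (Or.inr (Or.inr (Or.inr (Or.inl ?_)))))); simp only [val_zero, val_one, true_and, and_true, false_and, and_false, true_or, or_true,
      false_or, or_false, add_zero, one_ne_zero, zero_ne_one] <;> omega)
       | (refine Or.inr (Or.inr (Or.inr (Or.inr (Or.inr (Or.inr (Or.inr (Or.inl ?_))))))); simp only [val_zero, val_one, true_and, and_true, false_and, and_false, true_or, or_true,
      false_or, or_false, add_zero, one_ne_zero, zero_ne_one] <;> omega)
       | (refine Or.inr (Or.inr (Or.inr (Or.inr (Or.inr (Or.inr (Or.inr (Or.inr (Or.inl ?_)))))))); simp only [val_zero, val_one, true_and, and_true, false_and, and_false, true_or, or_true,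
      false_or, or_false, add_zero, one_ne_zero, zero_ne_one] <;> omega)
       | (refine Or.inr (Or.inr (Or.inr (Or.inr (Or.inr (Or.inr (Or.inr (Or.inr (Or.inr (Or.inl ?_))))))))); simp only [val_zero, val_one, true_and, and_true, false_and, and_false, true_or, or_true,
      false_or, or_false, add_zero, one_ne_zero, zero_ne_one] <;> omega)
       | (refine Or.inr (Or.inr (Or.inr (Or.inr (Or.inr (Or.inr (Or.inr (Or.inr (Or.inr (Or.inr (Or.inl ?_)))))))))); simp only [val_zero, val_one, true_and, and_true, false_and, and_false, true_or, or_true,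
      false_or, or_false, add_zero, one_ne_zero, zero_ne_one] <;> omega)
       | (refine Or.inr (Or.inr (Or.inr (Or.inr (Or.inr (Or.inr (Or.inr (Or.inr (Or.inr (Or.inr (Or.inr (Or.inl ?_))))))))))); simp only [val_zero, val_one, true_and, and_true, false_and, and_false, true_or, or_true,
      false_or, or_false, add_zero, one_ne_zero, zero_ne_one] <;> omega)
       | (refine Or.inr (Or.inr (Or.inr (Or.inr (Or.inr (Or.inr (Or.inr (Or.inr (Or.inr (Or.inr (Or.inr (Or.inr ?_))))))))))); simp only [val_zero, val_one, true_and, and_true, false_and, and_false, true_or, or_true,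
      false_or, or_false, add_zero, one_ne_zero, zero_ne_one] <;> omega)
       | (rcases (by omega : q < 3 * t + 3 ∨ q = 3 * t + 3 ∨ q = 3 * t + 4 ∨ q = 3 * t + 5 ∨ q = 3 * t + 6 ∨ 3 * t + 6 < q) with e | e | e | e | e | e <;>
          rcases (by omega : p < 3 * t ∨ p = 3 * t ∨ p = 3 * t + 1 ∨ p = 3 * t + 2 ∨ p = 3 * t + 3 ∨ 3 * t + 3 < p) with e1 | e1 | e1 | e1 | e1 | e1 <;> first
          | (exfalso; omega)
          | (refine Or.inl ?_; simp only [val_zero, val_one, true_and, and_true, false_and, and_false, true_or, or_true,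
      false_or, or_false, add_zero, one_ne_zero, zero_ne_one] <;> omega)
          | (refine Or.inr (Or.inl ?_); simp only [val_zero, val_one, true_and, and_true, false_and, and_false, true_or, or_true,
      false_or, or_false, add_zero, one_ne_zero, zero_ne_one] <;> omega)
          | (refine Or.inr (Or.inr (Or.inl ?_)); simp only [val_zero, val_one, true_and, and_true, false_and, and_false, true_or, or_true,
      false_or, or_false, add_zero, one_ne_zero, zero_ne_one] <;> omega)
          | (refine Or.inr (Or.inr (Or.inr (Or.inl ?_))); simp only [val_zero, val_one, true_and, and_true, false_and, and_false, true_or, or_true,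
      false_or, or_false, add_zero, one_ne_zero, zero_ne_one] <;> omega)
          | (refine Or.inr (Or.inr (Or.inr (Or.inr (Or.inl ?_)))); simp only [val_zero, val_one, true_and, and_true, false_and, and_false, true_or, or_true,
      false_or, or_false, add_zero, one_ne_zero, zero_ne_one] <;> omega)
          | (refine Or.inr (Or.inr (Or.inr (Or.inr (Or.inr (Or.inl ?_))))); simp only [val_zero, val_one, true_and, and_true, false_and, and_false, true_or, or_true,
      false_or, or_false, add_zero, one_ne_zero, zero_ne_one] <;> omega)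
          | (refine Or.inr (Or.inr (Or.inr (Or.inr (Or.inr (Or.inr (Or.inl ?_)))))); simp only [val_zero, val_one, true_and, and_true, false_and, and_false, true_or, or_true,
      false_or, or_false, add_zero, one_ne_zero, zero_ne_one] <;> omega)
          | (refine Or.inr (Or.inr (Or.inr (Or.inr (Or.inr (Or.inr (Or.inr (Or.inl ?_))))))); simp only [val_zero, val_one, true_and, and_true, false_and, and_false, true_or, or_true,
      false_or, or_false, add_zero, one_ne_zero, zero_ne_one] <;> omega)
          | (refine Or.inr (Or.inr (Or.inr (Or.inr (Or.inr (Or.inr (Or.inr (Or.inr (Or.inl ?_)))))))); simp only [val_zero, val_one, true_and, and_true, false_and, and_false, true_or, or_true,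
      false_or, or_false, add_zero, one_ne_zero, zero_ne_one] <;> omega)
          | (refine Or.inr (Or.inr (Or.inr (Or.inr (Or.inr (Or.inr (Or.inr (Or.inr (Or.inr (Or.inl ?_))))))))); simp only [val_zero, val_one, true_and, and_true, false_and, and_false, true_or, or_true,
      false_or, or_false, add_zero, one_ne_zero, zero_ne_one] <;> omega)
          | (refine Or.inr (Or.inr (Or.inr (Or.inr (Or.inr (Or.inr (Or.inr (Or.inr (Or.inr (Or.inr (Or.inl ?_)))))))))); simp only [val_zero, val_one, true_and, and_true, false_and, and_false, true_or, or_true,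
      false_or, or_false, add_zero, one_ne_zero, zero_ne_one] <;> omega)
          | (refine Or.inr (Or.inr (Or.inr (Or.inr (Or.inr (Or.inr (Or.inr (Or.inr (Or.inr (Or.inr (Or.inr (Or.inl ?_))))))))))); simp only [val_zero, val_one, true_and, and_true, false_and, and_false, true_or, or_true,
      false_or, or_false, add_zero, one_ne_zero, zero_ne_one] <;> omega)
          | (refine Or.inr (Or.inr (Or.inr (Or.inr (Or.inr (Or.inr (Or.inr (Or.inr (Or.inr (Or.inr (Or.inr (Or.inr ?_))))))))))); simp only [val_zero, val_one, true_and, and_true, false_and, and_false, true_or, or_true,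
      false_or, or_false, add_zero, one_ne_zero, zero_ne_one] <;> omega)
          | (refine Or.inr (Or.inr (Or.inr (Or.inr (Or.inr (Or.inr (Or.inr (Or.inr (Or.inr (Or.inr (Or.inr (Or.inr ?_))))))))))); simp only [val_zero, val_one, true_and, and_true, false_and, and_false, true_or, or_true,
      false_or, or_false, add_zero, one_ne_zero, zero_ne_one]; rcases (by omega : q % 6 = 0 ∨ q % 6 = 1 ∨ q % 6 = 2 ∨ q % 6 = 3 ∨ q % 6 = 4 ∨ q % 6 = 5) with r | r | r | r | r | r <;> omega)))

lemma R1_gap {t : ℕ} {s z : ℕ × ℕ} (h : R1 (t + 1) s z) : R1 t (stp (t + 2) s) (stp (t + 1) z) := by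
  obtain ⟨q, f⟩ := s
  obtain ⟨p, g⟩ := z
  obtain ⟨⟨h1, h2⟩, ⟨h3, h4⟩, h5⟩ := h
  simp only at h1 h2 h3 h4 h5
  have ka := stp_cases (t + 2) q f
  have kb := stp_cases (t + 1) p g
  rcases h5 with c | c | c | c | c | c | c | c | c | c | c | c | c <;>
  rcases h2 with rfl | ⟨rfl, h2, h2'⟩ <;> rcases h4 with rfl | ⟨rfl, h4, h4'⟩ <;>
  simp only [val_zero, val_one, true_and, and_true, false_and, and_false, true_or, or_true,
      false_or, or_false, add_zero, one_ne_zero, zero_ne_one] at c <;>
  rcases ka with ⟨a1, a⟩ | ⟨a1, a2, a⟩ | ⟨a1, a2, a3, a⟩ | ⟨a1, a2, a⟩ | ⟨a1, a2, a⟩ <;>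
  try (exfalso; omega)
  all_goals
  rcases kb with ⟨b1, b⟩ | ⟨b1, b2, b⟩ | ⟨b1, b2, b3, b⟩ | ⟨b1, b2, b⟩ | ⟨b1, b2, b⟩ <;>
  try (exfalso; omega)
  all_goals rw [a, b]
  all_goals clear a b
  all_goals
    (refine ⟨⟨?_, ?_⟩, ⟨?_, ?_⟩, ?_⟩
     · simp only; omega
     · first | exact Or.inl rfl | exact Or.inr ⟨rfl, by omega, by omega⟩
     · simp only; omega
     · first | exact Or.inl rfl | exact Or.inr ⟨rfl, by omega, by omega⟩
     · first
       | (refine Or.inl ?_; simp only [val_zero, val_one, true_and, and_true, false_and, and_false, true_or, or_true,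
      false_or, or_false, add_zero, one_ne_zero, zero_ne_one] <;> omega)
       | (refine Or.inr (Or.inl ?_); simp only [val_zero, val_one, true_and, and_true, false_and, and_false, true_or, or_true,
      false_or, or_false, add_zero, one_ne_zero, zero_ne_one] <;> omega)
       | (refine Or.inr (Or.inr (Or.inl ?_)); simp only [val_zero, val_one, true_and, and_true, false_and, and_false, true_or, or_true,
      false_or, or_false, add_zero, one_ne_zero, zero_ne_one] <;> omega)
       | (refine Or.inr (Or.inr (Or.inr (Or.inl ?_))); simp only [val_zero, val_one, true_and, and_true, false_and, and_false, true_or, or_true,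
      false_or, or_false, add_zero, one_ne_zero, zero_ne_one] <;> omega)
       | (refine Or.inr (Or.inr (Or.inr (Or.inr (Or.inl ?_)))); simp only [val_zero, val_one, true_and, and_true, false_and, and_false, true_or, or_true,
      false_or, or_false, add_zero, one_ne_zero, zero_ne_one] <;> omega)
       | (refine Or.inr (Or.inr (Or.inr (Or.inr (Or.inr (Or.inl ?_))))); simp only [val_zero, val_one, true_and, and_true, false_and, and_false, true_or, or_true,
      false_or, or_false, add_zero, one_ne_zero, zero_ne_one] <;> omega)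
       | (refine Or.inr (Or.inr (Or.inr (Or.inr (Or.inr (Or.inr (Or.inl ?_)))))); simp only [val_zero, val_one, true_and, and_true, false_and, and_false, true_or, or_true,
      false_or, or_false, add_zero, one_ne_zero, zero_ne_one] <;> omega)
       | (refine Or.inr (Or.inr (Or.inr (Or.inr (Or.inr (Or.inr (Or.inr (Or.inl ?_))))))); simp only [val_zero, val_one, true_and, and_true, false_and, and_false, true_or, or_true,
      false_or, or_false, add_zero, one_ne_zero, zero_ne_one] <;> omega)
       | (refine Or.inr (Or.inr (Or.inr (Or.inr (Or.inr (Or.inr (Or.inr (Or.inr (Or.inl ?_)))))))); simp only [val_zero, val_one, true_and, and_true, false_and, and_false, true_or, or_true,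
      false_or, or_false, add_zero, one_ne_zero, zero_ne_one] <;> omega)
       | (refine Or.inr (Or.inr (Or.inr (Or.inr (Or.inr (Or.inr (Or.inr (Or.inr (Or.inr (Or.inl ?_))))))))); simp only [val_zero, val_one, true_and, and_true, false_and, and_false, true_or, or_true,
      false_or, or_false, add_zero, one_ne_zero, zero_ne_one] <;> omega)
       | (refine Or.inr (Or.inr (Or.inr (Or.inr (Or.inr (Or.inr (Or.inr (Or.inr (Or.inr (Or.inr (Or.inl ?_)))))))))); simp only [val_zero, val_one, true_and, and_true, false_and, and_false, true_or, or_true,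
      false_or, or_false, add_zero, one_ne_zero, zero_ne_one] <;> omega)
       | (refine Or.inr (Or.inr (Or.inr (Or.inr (Or.inr (Or.inr (Or.inr (Or.inr (Or.inr (Or.inr (Or.inr (Or.inl ?_))))))))))); simp only [val_zero, val_one, true_and, and_true, false_and, and_false, true_or, or_true,
      false_or, or_false, add_zero, one_ne_zero, zero_ne_one] <;> omega)
       | (refine Or.inr (Or.inr (Or.inr (Or.inr (Or.inr (Or.inr (Or.inr (Or.inr (Or.inr (Or.inr (Or.inr (Or.inr ?_))))))))))); simp only [val_zero, val_one, true_and, and_true, false_and, and_false, true_or, or_true,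
      false_or, or_false, add_zero, one_ne_zero, zero_ne_one] <;> omega)
       | (rcases (by omega : q < 3 * t + 3 ∨ q = 3 * t + 3 ∨ q = 3 * t + 4 ∨ q = 3 * t + 5 ∨ q = 3 * t + 6 ∨ 3 * t + 6 < q) with e | e | e | e | e | e <;>
          rcases (by omega : p < 3 * t ∨ p = 3 * t ∨ p = 3 * t + 1 ∨ p = 3 * t + 2 ∨ p = 3 * t + 3 ∨ 3 * t + 3 < p) with e1 | e1 | e1 | e1 | e1 | e1 <;> first
          | (exfalso; omega)
          | (refine Or.inl ?_; simp only [val_zero, val_one, true_and, and_true, false_and, and_false, true_or, or_true,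
      false_or, or_false, add_zero, one_ne_zero, zero_ne_one] <;> omega)
          | (refine Or.inr (Or.inl ?_); simp only [val_zero, val_one, true_and, and_true, false_and, and_false, true_or, or_true,
      false_or, or_false, add_zero, one_ne_zero, zero_ne_one] <;> omega)
          | (refine Or.inr (Or.inr (Or.inl ?_)); simp only [val_zero, val_one, true_and, and_true, false_and, and_false, true_or, or_true,
      false_or, or_false, add_zero, one_ne_zero, zero_ne_one] <;> omega)
          | (refine Or.inr (Or.inr (Or.inr (Or.inl ?_))); simp only [val_zero, val_one, true_and, and_true, false_and, and_false, true_or, or_true,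
      false_or, or_false, add_zero, one_ne_zero, zero_ne_one] <;> omega)
          | (refine Or.inr (Or.inr (Or.inr (Or.inr (Or.inl ?_)))); simp only [val_zero, val_one, true_and, and_true, false_and, and_false, true_or, or_true,
      false_or, or_false, add_zero, one_ne_zero, zero_ne_one] <;> omega)
          | (refine Or.inr (Or.inr (Or.inr (Or.inr (Or.inr (Or.inl ?_))))); simp only [val_zero, val_one, true_and, and_true, false_and, and_false, true_or, or_true,
      false_or, or_false, add_zero, one_ne_zero, zero_ne_one] <;> omega)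
          | (refine Or.inr (Or.inr (Or.inr (Or.inr (Or.inr (Or.inr (Or.inl ?_)))))); simp only [val_zero, val_one, true_and, and_true, false_and, and_false, true_or, or_true,
      false_or, or_false, add_zero, one_ne_zero, zero_ne_one] <;> omega)
          | (refine Or.inr (Or.inr (Or.inr (Or.inr (Or.inr (Or.inr (Or.inr (Or.inl ?_))))))); simp only [val_zero, val_one, true_and, and_true, false_and, and_false, true_or, or_true,
      false_or, or_false, add_zero, one_ne_zero, zero_ne_one] <;> omega)
          | (refine Or.inr (Or.inr (Or.inr (Or.inr (Or.inr (Or.inr (Or.inr (Or.inr (Or.inl ?_)))))))); simp only [val_zero, val_one, true_and, and_true, false_and, and_false, true_or, or_true,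
      false_or, or_false, add_zero, one_ne_zero, zero_ne_one] <;> omega)
          | (refine Or.inr (Or.inr (Or.inr (Or.inr (Or.inr (Or.inr (Or.inr (Or.inr (Or.inr (Or.inl ?_))))))))); simp only [val_zero, val_one, true_and, and_true, false_and, and_false, true_or, or_true,
      false_or, or_false, add_zero, one_ne_zero, zero_ne_one] <;> omega)
          | (refine Or.inr (Or.inr (Or.inr (Or.inr (Or.inr (Or.inr (Or.inr (Or.inr (Or.inr (Or.inr (Or.inl ?_)))))))))); simp only [val_zero, val_one, true_and, and_true, false_and, and_false, true_or, or_true,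
      false_or, or_false, add_zero, one_ne_zero, zero_ne_one] <;> omega)
          | (refine Or.inr (Or.inr (Or.inr (Or.inr (Or.inr (Or.inr (Or.inr (Or.inr (Or.inr (Or.inr (Or.inr (Or.inl ?_))))))))))); simp only [val_zero, val_one, true_and, and_true, false_and, and_false, true_or, or_true,
      false_or, or_false, add_zero, one_ne_zero, zero_ne_one] <;> omega)
          | (refine Or.inr (Or.inr (Or.inr (Or.inr (Or.inr (Or.inr (Or.inr (Or.inr (Or.inr (Or.inr (Or.inr (Or.inr ?_))))))))))); simp only [val_zero, val_one, true_and, and_true, false_and, and_false, true_or, or_true,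
      false_or, or_false, add_zero, one_ne_zero, zero_ne_one] <;> omega)
          | (refine Or.inr (Or.inr (Or.inr (Or.inr (Or.inr (Or.inr (Or.inr (Or.inr (Or.inr (Or.inr (Or.inr (Or.inr ?_))))))))))); simp only [val_zero, val_one, true_and, and_true, false_and, and_false, true_or, or_true,
      false_or, or_false, add_zero, one_ne_zero, zero_ne_one]; rcases (by omega : q % 6 = 0 ∨ q % 6 = 1 ∨ q % 6 = 2 ∨ q % 6 = 3 ∨ q % 6 = 4 ∨ q % 6 = 5) with r | r | r | r | r | r <;> omega)))

end Pool.Agent.R154.Cookie
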