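import Pool.Agent.R154.Cookie

set_option autoImplicit false

namespace Pool.Agent.R154.Cookie

lemma stp_fr {t : ℕ} {s : ℕ × ℕ} (h : 3 * t + s.2 ≤ s.1) : stp t s = s := by
  unfold stp; rw [if_pos h]

lemma stp_hi {t q f : ℕ} (h1 : q < 3 * t + f) (h2 : 3 * t + 6 ≤ 2 * q) :
    stp t (q, f) = (q - 3, f) := by
  unfold stp; simp only; rw [if_neg (by omega), if_pos h2]

lemma stp_mid {t q f : ℕ} (h1 : q < 3 * t + f) (h2 : 3 * t + 3 ≤ 2 * q) (h3 : 2 * q < 3 * t + 6) :
    stp t (q, f) = (q - 3, 0) := by
  unfold stp; simp only; rw [if_neg (by omega), if_neg (by omega), if_pos h2]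

lemma stp_hi0 {t q : ℕ} (h1 : q < 3 * t) (h2 : 3 * t + 3 ≤ 2 * q) :
    stp t (q, 0) = (q - 3, 0) := by
  by_cases h3 : 3 * t + 6 ≤ 2 * q
  · exact stp_hi (by omega) h3
  · exact stp_mid (by omega) h2 (by omega)

lemma stp_flag {t q f : ℕ} (h1 : q < 3 * t + f) (h2 : 3 * t + 2 = 2 * q) :
    stp t (q, f) = (q - 1, 1) := by
  unfold stp; simp only; rw [if_neg (by omega), if_neg (by omega), if_neg (by omega), if_pos h2]

lemma stp_lo {t q f : ℕ} (h1 : q < 3 * t + f) (h2 : 2 * q ≤ 3 * t + 1) :
    stp t (q, f) = (q - 1, 0) := by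
  unfold stp; simp only
  rw [if_neg (by omega), if_neg (by omega), if_neg (by omega), if_neg (by omega)]

/-- Some option in `O` is settled with Grundy value `v`. -/
def Fr (t v : ℕ) (O : ℕ × ℕ → Prop) : Prop := ∃ z, O z ∧ 3 * t + z.2 ≤ z.1 ∧ val z = v

/-- The options in `O` suffice for the state `s`. -/
def Ex (t : ℕ) (s : ℕ × ℕ) (O : ℕ × ℕ → Prop) : Prop :=
  (3 * t + 3 + s.2 ≤ s.1 → ∀ v < val s, Fr t v O) ∧
  (s.2 = 0 → t + 1 < s.1 → s.1 < 3 * t + 3 →
    (2 * s.1 ≤ 3 * t + 5 → 2 * s.1 ≠ 3 * t + 3 → O (s.1 - 2, 0)) ∧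
    (s.1 % 3 = 0 → 3 * t + 3 ≤ 2 * s.1 → O (s.1 - 2, 0) ∨ O (s.1, 1)) ∧
    (s.1 % 3 = 1 → 3 * t + 8 ≤ 2 * s.1 → O (s.1 - 4, 0)) ∧
    (s.1 % 3 = 2 → 3 * t + 7 ≤ 2 * s.1 → O (s.1 - 2, 1) ∧
      (O (s.1 - 2, 0) ∨ (s.1 = 3 * t + 2 ∧ Fr t 0 O)))) ∧
  (s.2 = 1 → s.1 < 3 * t + 4 →
    (O (s.1 - 2, 0) ∨ (s.1 = 3 * t + 3 ∧ Fr t 1 O)) ∧ (3 * t + 9 ≤ 2 * s.1 → O (s.1 - 4, 0)))

lemma Fr_gap {t v : ℕ} {O : ℕ × ℕ → Prop} (h : Fr (t + 1) v O) :
    Fr t v (fun w => ∃ u, O u ∧ w = stp (t + 1) u) := by
  obtain ⟨z, h1, h2, h3⟩ := h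
  exact ⟨z, ⟨z, h1, (stp_fr h2).symm⟩, by omega, h3⟩

lemma Fr_elem {t v : ℕ} {O : ℕ × ℕ → Prop} {y : ℕ × ℕ} (h : Fr (t + 1) v O) :
    Fr t v (fun w => O w ∨ w = y) := by
  obtain ⟨z, h1, h2, h3⟩ := h
  exact ⟨z, Or.inl h1, by omega, h3⟩

lemma Ex_gap {t : ℕ} {s : ℕ × ℕ} {O : ℕ × ℕ → Prop} (hW : W (t + 2) s) (h : Ex (t + 1) s O) :
    Ex t (stp (t + 2) s) (fun w => ∃ u, O u ∧ w = stp (t + 1) u) := by
  obtain ⟨q, f⟩ := s
  obtain ⟨hW1, hW2⟩ := hW
  obtain ⟨e1, e2, e3⟩ := h
  simp only at hW1 hW2 e1 e2 e3
  by_cases hfr : 3 * (t + 2) + f ≤ q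
  · -- settled
    rw [stp_fr hfr]
    refine ⟨fun _ v hv => Fr_gap (e1 (by omega) v hv), ?_, ?_⟩
    · intro h1 h2 h3; simp only at h1 h2 h3; omega
    · intro h1 h2; simp only at h1 h2; omega
  push Not at hfr
  rcases hW2 with rfl | ⟨rfl, hq3, hq4⟩
  · by_cases h1 : 2 * q ≤ 3 * (t + 2) + 1
    · rw [stp_lo hfr h1]
      refine ⟨fun h => ?_, fun _ h2 h3 => ?_, fun h => ?_⟩
      · simp only at h; omega
      · simp only at h2 h3
        have hex : (∃ u, O u ∧ ((q - 1 - 2, 0) : ℕ × ℕ) = stp (t + 1) u) := by
          by_cases h4 : 2 * q = 3 * (t + 1) + 3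
          · rcases (e2 rfl (by omega) (by omega)).2.1 (by omega) (by omega) with h5 | h5
            · refine ⟨_, h5, ?_⟩
              rw [stp_lo (by omega) (by omega)]
              exact Prod.ext (by simp only; omega) rfl
            · refine ⟨_, h5, ?_⟩
              rw [stp_mid (by omega) (by omega) (by omega)]
              exact Prod.ext (by simp only; omega) rfl
          · have h5 := (e2 rfl (by omega) (by omega)).1 (by omega) h4
            refine ⟨_, h5, ?_⟩
            rw [stp_lo (by omega) (by omega)]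
            exact Prod.ext (by simp only; omega) rfl
        refine ⟨fun _ _ => hex, fun _ _ => Or.inl hex, fun h4 h5 => ?_, fun h4 h5 => ?_⟩
        · simp only at h4 h5; omega
        · simp only at h4 h5; omega
      · simp only at h; omega
    by_cases h2 : 3 * (t + 2) + 2 = 2 * q
    · rw [stp_flag hfr h2]
      refine ⟨fun h => ?_, fun h => ?_, fun _ h3 => ⟨Or.inl ?_, fun h4 => ?_⟩⟩
      · simp only at h; omega
      · simp only at h; omega
      · have h5 := (e2 rfl (by omega) (by omega)).1 (by omega) (by omega)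
        refine ⟨_, h5, ?_⟩
        rw [stp_lo (by omega) (by omega)]
        exact Prod.ext (by simp only; omega) rfl
      · simp only at h4; omega
    · rw [stp_hi0 (by omega) (by omega)]
      obtain ⟨-, c0, c1, c2⟩ := e2 rfl (by omega) (by omega)
      refine ⟨fun h => ?_, fun _ h3 h4 => ⟨fun h5 h6 => ?_, fun h5 h6 => ?_, fun h5 h6 => ?_,
        fun h5 h6 => ?_⟩, fun h => ?_⟩
      · simp only at h; omega
      · simp only at h3 h4 h5 h6 ⊢
        rcases (by omega : q % 3 = 1 ∨ q % 3 = 2) with h7 | h7
        · refine ⟨_, c1 h7 (by omega), ?_⟩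
          rw [stp_lo (by omega) (by omega)]
          exact Prod.ext (by simp only; omega) rfl
        · refine ⟨_, (c2 h7 (by omega)).1, ?_⟩
          rw [stp_mid (by omega) (by omega) (by omega)]
          exact Prod.ext (by simp only; omega) rfl
      · simp only at h3 h4 h5 h6 ⊢
        rcases c0 (by omega) (by omega) with h7 | h7
        · by_cases h8 : 2 * q = 3 * (t + 2) + 3
          · right
            refine ⟨_, h7, ?_⟩
            rw [stp_flag (by omega) (by omega)]
            exact Prod.ext (by simp only; omega) rfl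
          · left
            refine ⟨_, h7, ?_⟩
            rw [stp_hi0 (by omega) (by omega)]
            exact Prod.ext (by simp only; omega) rfl
        · right
          refine ⟨_, h7, ?_⟩
          rw [stp_hi (by omega) (by omega)]
      · simp only at h3 h4 h5 h6 ⊢
        refine ⟨_, c1 (by omega) (by omega), ?_⟩
        rw [stp_hi0 (by omega) (by omega)]
        exact Prod.ext (by simp only; omega) rfl
      · simp only at h3 h4 h5 h6 ⊢
        obtain ⟨h7, h8⟩ := c2 (by omega) (by omega)
        refine ⟨⟨_, h7, ?_⟩, ?_⟩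
        · rw [stp_hi (by omega) (by omega)]
          exact Prod.ext (by simp only; omega) rfl
        · rcases h8 with h8 | ⟨h8, h9⟩
          · by_cases h10 : q = 3 * (t + 1) + 2
            · right
              refine ⟨by omega, (q - 2, 0), ⟨_, h8, ?_⟩, by simp only; omega, ?_⟩
              · rw [stp_fr (by simp only; omega)]
              · rw [val_zero]; omega
            · left
              refine ⟨_, h8, ?_⟩
              rw [stp_hi0 (by omega) (by omega)]
              exact Prod.ext (by simp only; omega) rfl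
          · right
            exact ⟨by omega, Fr_gap h9⟩
      · simp only at h; omega
  · obtain ⟨c0, c1⟩ := e3 rfl (by omega)
    by_cases h1 : 2 * q < 3 * (t + 2) + 6
    · rw [stp_mid hfr (by omega) h1]
      refine ⟨fun h => ?_, fun _ h3 h4 => ⟨fun h5 h6 => ?_, fun h5 h6 => ?_, fun h5 h6 => ?_,
        fun h5 h6 => ?_⟩, fun h => ?_⟩
      · simp only at h; omega
      · simp only at h3 h4 h5 h6 ⊢; omega
      · simp only at h3 h4 h5 h6 ⊢
        rcases c0 with h7 | ⟨h7, h8⟩
        · right
          refine ⟨_, h7, ?_⟩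
          rw [stp_flag (by omega) (by omega)]
          exact Prod.ext (by simp only; omega) rfl
        · omega
      · simp only at h3 h4 h5 h6 ⊢; omega
      · simp only at h3 h4 h5 h6 ⊢; omega
      · simp only at h; omega
    · rw [stp_hi hfr (by omega)]
      refine ⟨fun h => ?_, fun h => ?_, fun _ h3 => ⟨?_, fun h4 => ?_⟩⟩
      · simp only at h; omega
      · simp only at h; omega
      · simp only at h3 ⊢
        rcases c0 with h7 | ⟨h7, h8⟩
        · by_cases h9 : q = 3 * (t + 2)
          · right
            refine ⟨by omega, (q - 2, 0), ⟨_, h7, ?_⟩, by simp only; omega, ?_⟩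
            · rw [stp_fr (by simp only; omega)]
            · rw [val_zero]; omega
          · left
            refine ⟨_, h7, ?_⟩
            rw [stp_hi0 (by omega) (by omega)]
            exact Prod.ext (by simp only; omega) rfl
        · right
          exact ⟨by omega, Fr_gap h8⟩
      · simp only at h3 h4 ⊢
        refine ⟨_, c1 (by omega), ?_⟩
        rw [stp_hi0 (by omega) (by omega)]
        exact Prod.ext (by simp only; omega) rfl

lemma Ex_elem {t : ℕ} {s z : ℕ × ℕ} {O : ℕ × ℕ → Prop} (hR : R0 (t + 1) s z)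
    (h : Ex (t + 1) s O) : Ex t s (fun w => O w ∨ w = stp (t + 1) z) := by
  obtain ⟨q, f⟩ := s
  obtain ⟨⟨hW1, hW2⟩, ⟨hW3, hW4⟩, hR⟩ := hR
  obtain ⟨e1, e2, e3⟩ := h
  obtain ⟨p, g⟩ := z
  simp only at hW1 hW2 hW3 hW4 hR e1 e2 e3
  by_cases hfr : 3 * (t + 2) + f ≤ q
  · -- settled
    refine ⟨fun _ v hv => Fr_elem (e1 (by omega) v hv), ?_, ?_⟩
    · intro h1 h2 h3; simp only at h1 h2 h3; omega
    · intro h1 h2; simp only at h1 h2; omega
  push Not at hfr
  rcases hW2 with rfl | ⟨rfl, hq3, hq4⟩
  · by_cases h1 : q < 3 * (t + 1)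
    · -- stays active
      have hz : p + 1 = q ∧ (g = 0 ∨ (g = 1 ∧ q % 3 = 1)) := by
        rcases hR with c | c | c | c | c | c
        · refine ⟨c.2.2.2.1, ?_⟩
          rcases hW4 with h | ⟨h, -⟩
          · exact Or.inl h
          · exact Or.inr ⟨h, by have := c.2.2.2.2; omega⟩
        · have := c.2.2.1; omega
        · have := c.2.2.1; omega
        · have := c.2.2.1; omega
        · have := c.2.1; omega
        · have := c.2.1; omega
      obtain ⟨hz1, hz2⟩ := hz
      refine ⟨fun h => ?_, fun _ h3 h4 => ⟨fun h5 h6 => ?_, fun h5 h6 => ?_, fun h5 h6 => ?_,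
        fun h5 h6 => ?_⟩, fun h => ?_⟩
      · simp only at h; omega
      · simp only at h3 h4 h5 h6 ⊢
        by_cases h7 : q = t + 2
        · right
          rw [stp_lo (by omega) (by omega)]
          exact Prod.ext (by simp only; omega) rfl
        · left
          exact (e2 rfl (by omega) (by omega)).1 (by omega) (by omega)
      · simp only at h3 h4 h5 h6 ⊢
        by_cases h7 : q = t + 2
        · left; right
          rw [stp_lo (by omega) (by omega)]
          exact Prod.ext (by simp only; omega) rfl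
        · by_cases h8 : 2 * q = 3 * (t + 1)
          · left; left
            exact (e2 rfl (by omega) (by omega)).1 (by omega) (by omega)
          · rcases (e2 rfl (by omega) (by omega)).2.1 (by omega) (by omega) with h9 | h9
            · exact Or.inl (Or.inl h9)
            · exact Or.inr (Or.inl h9)
      · simp only at h3 h4 h5 h6 ⊢
        by_cases h7 : 2 * q = 3 * (t + 1) + 5
        · right
          rw [stp_mid (by omega) (by omega) (by omega)]
          exact Prod.ext (by simp only; omega) rfl
        · left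
          exact (e2 rfl (by omega) (by omega)).2.2.1 (by omega) (by omega)
      · simp only at h3 h4 h5 h6 ⊢
        by_cases h7 : 2 * q = 3 * (t + 1) + 4
        · refine ⟨Or.inr ?_, Or.inl (Or.inl ?_)⟩
          · rw [stp_flag (by omega) (by omega)]
            exact Prod.ext (by simp only; omega) rfl
          · exact (e2 rfl (by omega) (by omega)).1 (by omega) (by omega)
        · obtain ⟨h8, h9⟩ := (e2 rfl (by omega) (by omega)).2.2.2 (by omega) (by omega)
          refine ⟨Or.inl h8, Or.inl (Or.inl ?_)⟩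
          rcases h9 with h9 | ⟨h9, -⟩
          · exact h9
          · omega
      · simp only at h; omega
    · -- becomes settled
      refine ⟨fun _ v hv => ?_, fun _ h3 h4 => ?_, fun h => ?_⟩
      · rcases (by omega : q = 3 * (t + 1) ∨ q = 3 * (t + 1) + 1 ∨ q = 3 * (t + 1) + 2) with
          h2 | h2 | h2
        · rw [val_zero] at hv; omega
        · obtain rfl : v = 0 := by rw [val_zero] at hv; omega
          by_cases h3 : 1 ≤ t
          · exact ⟨(q - 4, 0), Or.inl ((e2 rfl (by omega) (by omega)).2.2.1 (by omega) (by omega)),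
              by simp only; omega, by rw [val_zero]; omega⟩
          · obtain rfl : t = 0 := by omega
            refine ⟨stp (0 + 1) (p, g), Or.inr rfl, ?_⟩
            rcases hR with c | c | c | c | c | c
            · have hg : g = 1 := by rcases hW4 with h | ⟨h, -⟩ <;> omega
              have hp : p = 3 := by omega
              subst hg hp
              decide
            · have := c.2.2.1; omega
            · have := c.2.2.1; omega
            · rw [stp_fr (by simp only; omega)]
              exact ⟨by simp only; omega, c.2.2.2⟩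
            · have := c.2.1; omega
            · have := c.2.1; omega
        · obtain ⟨h3, h4⟩ := (e2 rfl (by omega) (by omega)).2.2.2 (by omega) (by omega)
          have h5 : 3 * (t + 1) + g ≤ p ∧ val (p, g) = 1 := by
            rcases hR with c | c | c | c | c | c
            · rcases hW4 with h | ⟨h, -⟩ <;> omega
            · have := c.2.2.1; omega
            · exact ⟨c.1, c.2.2.2⟩
            · have := c.2.2.1; omega
            · have := c.2.1; omega
            · have := c.2.1; omega
          rw [val_zero] at hv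
          rcases (by omega : v = 0 ∨ v = 1 ∨ (v = 2 ∧ q % 6 = 5)) with rfl | rfl | ⟨rfl, h6⟩
          · rcases h4 with h4 | ⟨-, h4⟩
            · exact ⟨_, Or.inl h4, by simp only; omega, by rw [val_zero]; omega⟩
            · exact Fr_elem h4
          · exact ⟨_, Or.inr rfl, by rw [stp_fr (by simpa using h5.1)]; simp only; omega,
              by rw [stp_fr (by simpa using h5.1)]; exact h5.2⟩
          · exact ⟨_, Or.inl h3, by simp only; omega, by rw [val_one]; omega⟩
      · simp only at h3 h4; omega
      · simp only at h; omega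
  · obtain ⟨c0, c1⟩ := e3 rfl (by omega)
    by_cases h1 : q < 3 * (t + 2)
    · have hz : g = 0 ∧ p + 3 = q := by
        rcases hR with c | c | c | c | c | c
        · have := c.2.2.1; omega
        · exact c.2.2.2
        · have := c.2.1; omega
        · have := c.2.1; omega
        · have := c.2.2.1; omega
        · have := c.2.1; omega
      obtain ⟨rfl, hz⟩ := hz
      refine ⟨fun h => ?_, fun h => ?_, fun _ h3 => ⟨Or.inl (Or.inl ?_), fun h4 => ?_⟩⟩
      · simp only at h; omega
      · simp only at h; omega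
      · rcases c0 with h7 | ⟨h7, -⟩
        · exact h7
        · omega
      · simp only at h3 h4 ⊢
        by_cases h5 : 3 * (t + 1) + 9 ≤ 2 * q
        · exact Or.inl (c1 h5)
        · right
          rw [stp_lo (by omega) (by omega)]
          exact Prod.ext (by simp only; omega) rfl
    · have h2 : q = 3 * (t + 2) := by omega
      have h5 : 3 * (t + 1) + g ≤ p ∧ val (p, g) = 0 := by
        rcases hR with c | c | c | c | c | c
        · have := c.2.2.1; omega
        · have := c.2; omega
        · have := c.2.1; omega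
        · have := c.2.1; omega
        · exact ⟨c.1, c.2.2.2⟩
        · have := c.2.1; omega
      refine ⟨fun _ v hv => ?_, fun h => ?_, fun _ h3 => ?_⟩
      · rw [val_one] at hv
        rcases (by omega : v = 0 ∨ v = 1 ∨ (v = 2 ∧ q % 6 = 0)) with rfl | rfl | ⟨rfl, h6⟩
        · exact ⟨_, Or.inr rfl, by rw [stp_fr (by simpa using h5.1)]; simp only; omega,
              by rw [stp_fr (by simpa using h5.1)]; exact h5.2⟩
        · rcases c0 with h4 | ⟨-, h4⟩
          · exact ⟨_, Or.inl h4, by simp only; omega, by rw [val_zero]; omega⟩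
          · exact Fr_elem h4
        · exact ⟨_, Or.inl (c1 (by omega)), by simp only; omega, by rw [val_zero]; omega⟩
      · simp only at h; omega
      · simp only at h3; omega

end Pool.Agent.R154.Cookie
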