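import Pool.Agent.R154.CookieWalk

set_option autoImplicit false
set_option maxHeartbeats 4000000
set_option linter.unusedSimpArgs false
set_option linter.unusedTactic false
set_option linter.unreachableTactic false
set_option linter.style.multiGoal false

/-!
# The cookie game: the order of the options

The options of a position with distinct heaps are ranked; the rank is monotone in the heap chosen.
-/

namespace Pool.Agent.R154.Cookie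

/-- The residues of the state `s` and of the shifted state `z`. -/
def C0 (s z : ℕ × ℕ) : Prop :=
  (s.2 = 0 ∧ s.1 % 3 = 1 ∧ z.1 % 3 = 0) ∨
  (s.2 = 0 ∧ s.1 % 3 ≠ 1 ∧ z.2 = 0 ∧ (z.1 + 1) % 3 = s.1 % 3) ∨
  (s.2 = 1 ∧ z.2 = 0 ∧ z.1 % 3 = 0)

/-- The residues of the state `s` and of the state `o` of an option. -/
def C1 (s o : ℕ × ℕ) : Prop :=
  (s.2 = 0 ∧ (o.2 = 1 ∨ o.1 % 3 ≠ s.1 % 3)) ∨ (s.2 = 1 ∧ o.2 = 0)

/-- A restriction on a state, an option and the shifted state. -/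
def R3 (s o z : ℕ × ℕ) : Prop := ¬ (s.2 = 0 ∧ s.1 % 3 = 1 ∧ o.2 = 1 ∧ z.2 = 0)

/-- The basic rank of the option `o`. -/
def rkb : ℕ × ℕ → ℕ × ℕ → ℕ
  | (q, 0), (p, 0) => (p % 3 + q % 3 % 2) % 3 + min (p % 3) (q % 3 / 2)
  | (q, 0), (_, _ + 1) => 2 * (q % 3) % 3
  | (_, _ + 1), (p, _) => (p + 2) % 3

lemma rkb_00 (q p : ℕ) :
    rkb (q, 0) (p, 0) = (p % 3 + q % 3 % 2) % 3 + min (p % 3) (q % 3 / 2) := rfl
lemma rkb_01 (q p : ℕ) : rkb (q, 0) (p, 1) = 2 * (q % 3) % 3 := rfl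
lemma rkb_1 (q p g : ℕ) : rkb (q, 1) (p, g) = (p + 2) % 3 := rfl

/-- The rank of the option `o`. -/
def rk (t : ℕ) (s o : ℕ × ℕ) : ℕ :=
  2 * rkb s o - min (min 1 (s.1 + 1 - (3 * t + 3 + s.2))) (3 * t + o.2 - o.1)

/-- The change of the rank at the missing size `t`. -/
def G (t : ℕ) (s : ℕ × ℕ) (r : ℕ) : ℕ :=
  if 3 * t + s.2 ≤ s.1 then (if t = 2 ∧ r = 3 then 2 else r)
  else if 2 * s.1 ≤ 3 * t + 1 then (if s.1 % 3 = 1 then 2 else 0)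
  else if 2 * s.1 ≤ 3 * t + 5 then 0
  else if 2 * s.1 ≤ 3 * t + 8 then (if s.2 = 1 then 0 else min r 2)
  else if 2 * s.1 = 3 * t + 9 ∧ s.2 = 1 then min r 2
  else r

/-- The change of the rank at the present size `t`. -/
def Ge (t : ℕ) (s : ℕ × ℕ) (r : ℕ) : ℕ :=
  if 3 * t + s.2 ≤ s.1 then (if r = 3 then 4 else r)
  else if 3 * t + s.2 ≤ s.1 + 3 then (if s.2 = 0 ∧ s.1 % 3 ≠ 2 ∧ r = 4 then 3 else r)
  else r

lemma G_mono {t : ℕ} {s : ℕ × ℕ} {r r' : ℕ} (h : r ≤ r') : G t s r ≤ G t s r' := by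
  unfold G; split_ifs <;> omega

lemma Ge_mono {t : ℕ} {s : ℕ × ℕ} {r r' : ℕ} (h : r ≤ r') (h4 : r' ≤ 4) : Ge t s r ≤ Ge t s r' := by
  unfold Ge; split_ifs <;> omega

lemma C0_base (t : ℕ) : C0 (t + 1, 0) (t, 0) := by
  rcases (by omega : (t + 1) % 3 = 1 ∨ (t + 1) % 3 ≠ 1) with h | h
  · exact Or.inl ⟨rfl, h, by simp only; omega⟩
  · exact Or.inr (Or.inl ⟨rfl, h, rfl, rfl⟩)

lemma C1_of_C0 {s z : ℕ × ℕ} (hz : z.2 = 0 ∨ z.2 = 1) (h : C0 s z) : C1 s z := by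
  unfold C0 at h; unfold C1; omega

lemma rk_le {t : ℕ} {s o : ℕ × ℕ} (hs : s.2 = 0 ∨ s.2 = 1) (ho : o.2 = 0 ∨ o.2 = 1) (h : C1 s o) : rk t s o ≤ 4 := by
  obtain ⟨q, f⟩ := s
  obtain ⟨p, g⟩ := o
  simp only at hs ho
  rcases hs with rfl | rfl <;> rcases ho with rfl | rfl <;>
    simp only [rk, rkb_00, rkb_01, rkb_1, C1, true_and, and_true, false_and, and_false, true_or, or_true, false_or, or_false, zero_ne_one, one_ne_zero] at h ⊢ <;> omega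


lemma mod3 {q : ℕ} (h : 3 ≤ q) : (q - 3) % 3 = q % 3 := by omega

lemma mod3' {q : ℕ} (h : 3 ≤ q) : (q - 3 + 2) % 3 = (q + 2) % 3 := by omega

lemma resq (q : ℕ) (h : 1 ≤ q) : (q % 3 = 0 ∧ (q - 1) % 3 = 2) ∨
    (q % 3 = 1 ∧ (q - 1) % 3 = 0) ∨ (q % 3 = 2 ∧ (q - 1) % 3 = 1) := by omega

lemma resp (p : ℕ) (h : 1 ≤ p) :
    (p % 3 = 0 ∧ (p - 1) % 3 = 2 ∧ (p + 2) % 3 = 2 ∧ (p - 1 + 2) % 3 = 1) ∨
    (p % 3 = 1 ∧ (p - 1) % 3 = 0 ∧ (p + 2) % 3 = 0 ∧ (p - 1 + 2) % 3 = 2) ∨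
    (p % 3 = 2 ∧ (p - 1) % 3 = 1 ∧ (p + 2) % 3 = 1 ∧ (p - 1 + 2) % 3 = 0) := by omega

lemma rk_a {t : ℕ} {s o : ℕ × ℕ} (h : s.1 < 3 * t + 3 + s.2 ∨ 3 * t + o.2 ≤ o.1) :
    rk t s o = 2 * rkb s o := by
  unfold rk; omega

lemma rk_b {t : ℕ} {s o : ℕ × ℕ} (h : 3 * t + 3 + s.2 ≤ s.1) (h' : o.1 < 3 * t + o.2) :
    rk t s o = 2 * rkb s o - 1 := by
  unfold rk; omega

lemma G_fr2 {t q f r : ℕ} (h : 3 * t + f ≤ q) (h2 : t = 2) (h3 : r = 3) : G t (q, f) r = 2 := by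
  unfold G; simp only; rw [if_pos h, if_pos ⟨h2, h3⟩]

lemma G_two {q f r : ℕ} (h : 6 + f ≤ q) : G 2 (q, f) r = if r = 3 then 2 else r := by
  unfold G; simp only; rw [if_pos (by omega)]; simp only [true_and]

lemma G_fr {t q f r : ℕ} (h : 3 * t + f ≤ q) (h2 : t ≠ 2 ∨ r ≠ 3) : G t (q, f) r = r := by
  unfold G; simp only; rw [if_pos h, if_neg (by omega)]

lemma G_lo1 {t q f r : ℕ} (h : q < 3 * t + f) (h2 : 2 * q ≤ 3 * t + 1) (h3 : q % 3 = 1) :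
    G t (q, f) r = 2 := by
  unfold G; simp only; rw [if_neg (by omega), if_pos h2, if_pos h3]

lemma G_lo2 {t q f r : ℕ} (h : q < 3 * t + f) (h2 : 2 * q ≤ 3 * t + 1) (h3 : q % 3 ≠ 1) :
    G t (q, f) r = 0 := by
  unfold G; simp only; rw [if_neg (by omega), if_pos h2, if_neg h3]

lemma G_mid {t q f r : ℕ} (h : q < 3 * t + f) (h2 : 3 * t + 1 < 2 * q) (h3 : 2 * q ≤ 3 * t + 5) :
    G t (q, f) r = 0 := by
  unfold G; simp only; rw [if_neg (by omega), if_neg (by omega), if_pos (by omega)]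

lemma G_m1 {t q r : ℕ} (h : q < 3 * t + 1) (h2 : 3 * t + 5 < 2 * q) (h3 : 2 * q ≤ 3 * t + 8) :
    G t (q, 1) r = 0 := by
  unfold G; simp only
  rw [if_neg (by omega), if_neg (by omega), if_neg (by omega), if_pos (by omega), if_pos trivial]

lemma G_m0 {t q r : ℕ} (h : q < 3 * t) (h2 : 3 * t + 5 < 2 * q) (h3 : 2 * q ≤ 3 * t + 8) :
    G t (q, 0) r = min r 2 := by
  unfold G; simp only
  rw [if_neg (by omega), if_neg (by omega), if_neg (by omega), if_pos (by omega),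
    if_neg (by omega)]

lemma G_m9 {t q r : ℕ} (h : q < 3 * t + 1) (h3 : 2 * q = 3 * t + 9) :
    G t (q, 1) r = min r 2 := by
  unfold G; simp only
  rw [if_neg (by omega), if_neg (by omega), if_neg (by omega), if_neg (by omega),
    if_pos ⟨h3, trivial⟩]

lemma G_h {t q f r : ℕ} (h : q < 3 * t + f) (h3 : 3 * t + 9 ≤ 2 * q) (h4 : f = 0 ∨ 2 * q ≠ 3 * t + 9) :
    G t (q, f) r = r := by
  unfold G; simp only
  rw [if_neg (by omega), if_neg (by omega), if_neg (by omega), if_neg (by omega),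
    if_neg (by omega)]



lemma R1_flags {t : ℕ} {s o : ℕ × ℕ} (h : R1 t s o) :
    (s.2 = 0 ∨ s.2 = 1) ∧ (o.2 = 0 ∨ o.2 = 1) := by
  obtain ⟨⟨-, h1⟩, ⟨-, h2⟩, -⟩ := h
  exact ⟨h1.imp id fun h => h.1, h2.imp id fun h => h.1⟩

lemma C0_gap {t : ℕ} {s z : ℕ × ℕ} (h : R0 (t + 1) s z) (hc : C0 s z) : C0 (stp (t + 2) s) (stp (t + 1) z) := by
  obtain ⟨q, f⟩ := s
  obtain ⟨p, g⟩ := z
  obtain ⟨⟨h1, h2⟩, ⟨h3, h4⟩, h5⟩ := h
  unfold C0 at hc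
  simp only at h1 h2 h3 h4 h5 hc
  have ka := stp_cases (t + 2) q f
  have kb := stp_cases (t + 1) p g
  rcases h5 with c | c | c | c | c | c <;>
  rcases h2 with rfl | ⟨rfl, h2, h2'⟩ <;> rcases h4 with rfl | ⟨rfl, h4, h4'⟩ <;>
  simp only [val_zero, val_one, true_and, and_true, false_and, and_false, true_or, or_true,
      false_or, or_false, add_zero, one_ne_zero, zero_ne_one, not_true, not_false_iff, ne_eq, Nat.sub_zero, not_true_eq_false, rkb_00, rkb_01, rkb_1, rk] at c hc <;>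
  try (exfalso; omega)
  all_goals
  rcases ka with ⟨a1, a⟩ | ⟨a1, a2, a⟩ | ⟨a1, a2, a3, a⟩ | ⟨a1, a2, a⟩ | ⟨a1, a2, a⟩ <;>
  try (exfalso; omega)
  all_goals
  rcases kb with ⟨b1, b⟩ | ⟨b1, b2, b⟩ | ⟨b1, b2, b3, b⟩ | ⟨b1, b2, b⟩ | ⟨b1, b2, b⟩ <;>
  try (exfalso; omega)
  all_goals rw [a, b]
  all_goals clear a b
  all_goals
    (simp only [C0, C1, R3, val_zero, val_one, true_and, and_true, false_and, and_false, true_or, or_true,
      false_or, or_false, add_zero, one_ne_zero, zero_ne_one, not_true, not_false_iff, ne_eq, Nat.sub_zero, not_true_eq_false, rkb_00, rkb_01, rkb_1, rk] <;> omega)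

lemma C1_rem {t : ℕ} {s z : ℕ × ℕ} (h : R0 (t + 1) s z) (hc : C0 s z) : C1 s (stp (t + 1) z) := by
  obtain ⟨q, f⟩ := s
  obtain ⟨p, g⟩ := z
  obtain ⟨⟨h1, h2⟩, ⟨h3, h4⟩, h5⟩ := h
  unfold C0 at hc
  simp only at h1 h2 h3 h4 h5 hc
  have kb := stp_cases (t + 1) p g
  rcases h5 with c | c | c | c | c | c <;>
  rcases h2 with rfl | ⟨rfl, h2, h2'⟩ <;> rcases h4 with rfl | ⟨rfl, h4, h4'⟩ <;>
  simp only [val_zero, val_one, true_and, and_true, false_and, and_false, true_or, or_true,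
      false_or, or_false, add_zero, one_ne_zero, zero_ne_one, not_true, not_false_iff, ne_eq, Nat.sub_zero, not_true_eq_false, rkb_00, rkb_01, rkb_1, rk] at c hc <;>
  try (exfalso; omega)
  all_goals
  rcases kb with ⟨b1, b⟩ | ⟨b1, b2, b⟩ | ⟨b1, b2, b3, b⟩ | ⟨b1, b2, b⟩ | ⟨b1, b2, b⟩ <;>
  try (exfalso; omega)
  all_goals rw [b]
  all_goals clear b
  all_goals
    (simp only [C0, C1, R3, val_zero, val_one, true_and, and_true, false_and, and_false, true_or, or_true,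
      false_or, or_false, add_zero, one_ne_zero, zero_ne_one, not_true, not_false_iff, ne_eq, Nat.sub_zero, not_true_eq_false, rkb_00, rkb_01, rkb_1, rk] <;> omega)

lemma C1_gap {t : ℕ} {s z : ℕ × ℕ} (h : R1 (t + 1) s z) (hc : C1 s z) : C1 (stp (t + 2) s) (stp (t + 1) z) := by
  obtain ⟨q, f⟩ := s
  obtain ⟨p, g⟩ := z
  obtain ⟨⟨h1, h2⟩, ⟨h3, h4⟩, h5⟩ := h
  unfold C1 at hc
  simp only at h1 h2 h3 h4 h5 hc
  have ka := stp_cases (t + 2) q f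
  have kb := stp_cases (t + 1) p g
  rcases h5 with c | c | c | c | c | c | c | c | c | c | c | c | c <;>
  rcases h2 with rfl | ⟨rfl, h2, h2'⟩ <;> rcases h4 with rfl | ⟨rfl, h4, h4'⟩ <;>
  simp only [val_zero, val_one, true_and, and_true, false_and, and_false, true_or, or_true,
      false_or, or_false, add_zero, one_ne_zero, zero_ne_one, not_true, not_false_iff, ne_eq, Nat.sub_zero, not_true_eq_false, rkb_00, rkb_01, rkb_1, rk] at c hc <;>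
  try (exfalso; omega)
  all_goals
  rcases ka with ⟨a1, a⟩ | ⟨a1, a2, a⟩ | ⟨a1, a2, a3, a⟩ | ⟨a1, a2, a⟩ | ⟨a1, a2, a⟩ <;>
  try (exfalso; omega)
  all_goals
  rcases kb with ⟨b1, b⟩ | ⟨b1, b2, b⟩ | ⟨b1, b2, b3, b⟩ | ⟨b1, b2, b⟩ | ⟨b1, b2, b⟩ <;>
  try (exfalso; omega)
  all_goals rw [a, b]
  all_goals clear a b
  all_goals
    (simp only [C0, C1, R3, val_zero, val_one, true_and, and_true, false_and, and_false, true_or, or_true,
      false_or, or_false, add_zero, one_ne_zero, zero_ne_one, not_true, not_false_iff, ne_eq, Nat.sub_zero, not_true_eq_false, rkb_00, rkb_01, rkb_1, rk] <;> omega)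

lemma R3_new {t : ℕ} {s z : ℕ × ℕ} (h : R0 (t + 1) s z) (hc : C0 s z) : R3 s (stp (t + 1) z) z := by
  obtain ⟨q, f⟩ := s
  obtain ⟨p, g⟩ := z
  obtain ⟨⟨h1, h2⟩, ⟨h3, h4⟩, h5⟩ := h
  unfold C0 at hc
  simp only at h1 h2 h3 h4 h5 hc
  have kb := stp_cases (t + 1) p g
  rcases h5 with c | c | c | c | c | c <;>
  rcases h2 with rfl | ⟨rfl, h2, h2'⟩ <;> rcases h4 with rfl | ⟨rfl, h4, h4'⟩ <;>
  simp only [val_zero, val_one, true_and, and_true, false_and, and_false, true_or, or_true,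
      false_or, or_false, add_zero, one_ne_zero, zero_ne_one, not_true, not_false_iff, ne_eq, Nat.sub_zero, not_true_eq_false, rkb_00, rkb_01, rkb_1, rk] at c hc <;>
  try (exfalso; omega)
  all_goals
  rcases kb with ⟨b1, b⟩ | ⟨b1, b2, b⟩ | ⟨b1, b2, b3, b⟩ | ⟨b1, b2, b⟩ | ⟨b1, b2, b⟩ <;>
  try (exfalso; omega)
  all_goals rw [b]
  all_goals clear b
  all_goals
    (simp only [C0, C1, R3, val_zero, val_one, true_and, and_true, false_and, and_false, true_or, or_true,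
      false_or, or_false, add_zero, one_ne_zero, zero_ne_one, not_true, not_false_iff, ne_eq, Nat.sub_zero, not_true_eq_false, rkb_00, rkb_01, rkb_1, rk] <;> omega)

lemma R3_gap {t : ℕ} {s z o : ℕ × ℕ} (h : R0 (t + 1) s z) (hc : C0 s z) (h' : R1 (t + 1) s o)
    (hc' : C1 s o) (hr : R3 s o z) : R3 (stp (t + 2) s) (stp (t + 1) o) (stp (t + 1) z) := by
  obtain ⟨q, f⟩ := s
  obtain ⟨p, g⟩ := z
  obtain ⟨u, e⟩ := o
  obtain ⟨⟨h1, h2⟩, ⟨h3, h4⟩, h5⟩ := h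
  obtain ⟨-, ⟨m3, m4⟩, m5⟩ := h'
  unfold C0 at hc
  unfold C1 at hc'
  unfold R3 at hr
  simp only at h1 h2 h3 h4 h5 hc m3 m4 m5 hc' hr
  have ka : Unit → _ := fun _ => stp_cases (t + 2) q f
  have kb : Unit → _ := fun _ => stp_cases (t + 1) u e
  have kd : Unit → _ := fun _ => stp_cases (t + 1) p g
  rcases h2 with rfl | ⟨rfl, h2, h2'⟩ <;> rcases h4 with rfl | ⟨rfl, h4, h4'⟩ <;>
  rcases m4 with rfl | ⟨rfl, m4, m4'⟩ <;>
  simp only [val_zero, val_one, true_and, and_true, false_and, and_false, true_or, or_true,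
      false_or, or_false, add_zero, one_ne_zero, zero_ne_one, not_true, not_false_iff, ne_eq, Nat.sub_zero, not_true_eq_false, rkb_00, rkb_01, rkb_1, rk] at hc hc' hr <;>
  try contradiction
  all_goals
  have h5' : Unit → _ := fun _ => h5
  have m5' : Unit → _ := fun _ => m5
  clear h5 m5
  rcases kb () with ⟨b1, b⟩ | ⟨b1, b2, b⟩ | ⟨b1, b2, b3, b⟩ | ⟨b1, b2, b⟩ | ⟨b1, b2, b⟩ <;>
  rw [b] <;> rintro ⟨n1, n2, n3, n4⟩ <;> simp only [zero_ne_one] at n3 <;>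
  try (exfalso; omega)
  all_goals
  rcases ka () with ⟨a1, a⟩ | ⟨a1, a2, a⟩ | ⟨a1, a2, a3, a⟩ | ⟨a1, a2, a⟩ | ⟨a1, a2, a⟩ <;>
  rw [a] at n1 n2 <;> simp only [one_ne_zero] at n1 n2 <;>
  try (exfalso; omega)
  all_goals
  rcases kd () with ⟨d1, d⟩ | ⟨d1, d2, d⟩ | ⟨d1, d2, d3, d⟩ | ⟨d1, d2, d⟩ | ⟨d1, d2, d⟩ <;>
  rw [d] at n4 <;> simp only [one_ne_zero] at n4 <;>
  try (exfalso; omega)
  all_goals clear a b d
  all_goals
  rcases h5' () with c | c | c | c | c | c <;> try (exfalso; omega)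
  all_goals
  rcases m5' () with c2 | c2 | c2 | c2 | c2 | c2 | c2 | c2 | c2 | c2 | c2 | c2 | c2 <;> first | omega | contradiction

lemma rk_fin {s z o : ℕ × ℕ} (h : R0 0 s z) (hc : C0 s z) (h' : R1 0 s o)
    (hc' : C1 s o) (hr : R3 s o z) : rkb s o ≤ rkb s z := by
  obtain ⟨hf1, hf2⟩ := R1_flags h'
  have hf3 : z.2 = 0 ∨ z.2 = 1 := h.2.1.2.imp id fun h => h.1
  obtain ⟨q, f⟩ := s
  obtain ⟨p, g⟩ := z
  obtain ⟨u, e⟩ := o
  unfold C0 at hc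
  unfold C1 at hc'
  unfold R3 at hr
  simp only at hc hc' hr hf1 hf2 hf3
  clear h h'
  rcases hf1 with rfl | rfl <;> rcases hf2 with rfl | rfl <;> rcases hf3 with rfl | rfl <;>
    rcases (by omega : u % 3 = 0 ∨ u % 3 = 1 ∨ u % 3 = 2) with ru | ru | ru <;>
    rcases (by omega : q % 3 = 0 ∨ q % 3 = 1 ∨ q % 3 = 2) with rq | rq | rq <;>
    rcases (by omega : p % 3 = 0 ∨ p % 3 = 1 ∨ p % 3 = 2) with rp | rp | rp <;>
    first
    | (exfalso; omega)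
    | (simp only [rkb_00, rkb_01, rkb_1, ru, rq, rp] <;> omega)

lemma rk_zero {s o : ℕ × ℕ} (h : R1 0 s o) : rk 0 s o = 2 * rkb s o := by
  obtain ⟨q, f⟩ := s
  obtain ⟨u, e⟩ := o
  obtain ⟨-, ⟨m3, m4⟩, -⟩ := h
  simp only at m3 m4
  unfold rk
  simp only
  omega

lemma o_bd {t : ℕ} {s o : ℕ × ℕ} (h : R1 (t + 1) s o) (hc : C1 s o) :
    (s.2 = 1 → 2 * s.1 = 3 * t + 9 → o.1 % 3 ≠ 0) ∧
    (s.2 = 0 → s.1 % 3 = 2 → 2 * s.1 ≤ 3 * t + 7 → o.2 = 0 ∧ o.1 % 3 = 0) ∧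
    (s.2 = 0 → s.1 % 3 = 1 → 2 * s.1 ≤ 3 * t + 8 → o.2 = 0) ∧
    (s.2 = 0 → s.1 % 3 = 1 → 2 * s.1 ≤ 3 * t + 7 → o.1 % 3 = 2) ∧
    (s.2 = 0 → s.1 % 3 = 0 → 2 * s.1 ≤ 3 * t + 7 → o.2 = 0 → o.1 % 3 = 1) ∧
    (s.2 = 0 → s.1 = 3 * t + 3 → o.2 = 0 → o.1 % 3 = 2 → 1 ≤ t ∧ o.1 < 3 * t) ∧
    (s.2 = 0 → s.1 = 3 * t + 4 → o.2 = 1 → 1 ≤ t ∧ o.1 < 3 * t + 1) := by
  obtain ⟨q, f⟩ := s
  obtain ⟨u, e⟩ := o
  obtain ⟨⟨h1, h2⟩, ⟨h3, h4⟩, h5⟩ := h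
  unfold C1 at hc
  simp only at h1 h2 h3 h4 h5 hc ⊢
  have h5' : Unit → _ := fun _ => h5
  clear h5
  refine ⟨?_, ?_, ?_, ?_, ?_, ?_, ?_⟩ <;> (try intro i1) <;> (try intro i2) <;> (try intro i3) <;> (try intro i4) <;>
  rcases h2 with rfl | ⟨rfl, h2, h2'⟩ <;> (try (exfalso; omega)) <;>
  rcases h4 with rfl | ⟨rfl, h4, h4'⟩ <;> (try (exfalso; omega)) <;>
  rcases h5' () with c | c | c | c | c | c | c | c | c | c | c | c | c <;> omega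

lemma rk_up0 {t : ℕ} {s o : ℕ × ℕ} (h : R1 (t + 1) s o) (hc : C1 s o) (h1 : s.2 = 0)
    (h2 : 2 * s.1 ≤ 3 * t + 7) (h3 : s.1 % 3 ≠ 0) : rk t s o ≤ 0 := by
  obtain ⟨-, L2, L3, L4, -⟩ := o_bd h hc
  obtain ⟨q, f⟩ := s
  obtain ⟨u, e⟩ := o
  simp only at h1 h2 h3 L2 L3 L4
  subst h1
  rcases (by omega : q % 3 = 1 ∨ q % 3 = 2) with rq | rq
  · have e0 : e = 0 := L3 rfl rq (by omega)
    have ru := L4 rfl rq h2
    subst e0
    unfold rk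
    rw [rkb_00, rq, ru]
    omega
  · obtain ⟨e0, ru⟩ := L2 rfl rq h2
    subst e0
    unfold rk
    rw [rkb_00, rq, ru]
    omega

lemma rk_up2 {t : ℕ} {s o : ℕ × ℕ} (h : R1 (t + 1) s o) (hc : C1 s o)
    (hs : (s.2 = 1 ∧ 2 * s.1 = 3 * t + 9) ∨
      (s.2 = 0 ∧ s.1 % 3 = 1 ∧ (o.2 = 0 ∨ 2 * s.1 ≤ 3 * t + 8 ∨ (s.1 = 3 * t + 4 ∧ t = 0))) ∨
      (s.2 = 0 ∧ s.1 % 3 = 0 ∧ (2 * s.1 ≤ 3 * t + 7 ∨ (s.1 = 3 * t + 3 ∧ t = 0)))) :
    rk t s o ≤ 2 := by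
  obtain ⟨L1, -, L3, -, L5, L6, L7⟩ := o_bd h hc
  obtain ⟨hf1, hf2⟩ := R1_flags h
  obtain ⟨q, f⟩ := s
  obtain ⟨u, e⟩ := o
  unfold C1 at hc
  simp only at hc hs L1 L3 L5 L6 L7 hf1 hf2
  have key : rkb (q, f) (u, e) ≤ 1 → rk t (q, f) (u, e) ≤ 2 := by
    intro h; unfold rk; omega
  apply key
  rcases hs with ⟨rfl, h1⟩ | ⟨rfl, rq, h1⟩ | ⟨rfl, rq, h1⟩
  · have := L1 rfl h1
    rw [rkb_1]; omega
  · have e0 : e = 0 := by
      rcases h1 with h1 | h1 | ⟨h1, h1'⟩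
      · exact h1
      · exact L3 rfl rq h1
      · by_contra hne
        have := (L7 rfl h1 (by omega)).1
        omega
    subst e0
    rw [rkb_00, rq]
    rcases (by omega : u % 3 = 0 ∨ u % 3 = 2) with ru | ru <;> rw [ru] <;> decide
  · rcases hf2 with rfl | rfl
    · have ru : u % 3 = 1 := by
        rcases h1 with h1 | ⟨h1, h1'⟩
        · exact L5 rfl rq h1 rfl
        · by_contra hne
          have := (L6 rfl h1 rfl (by omega)).1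
          omega
      rw [rkb_00, rq, ru]
      decide
    · rw [rkb_01, rq]
      decide

lemma rk_up3 {t : ℕ} {s o : ℕ × ℕ} (h : R1 (t + 1) s o) (hc : C1 s o)
    (hs : s.2 = 0 ∧ (s.1 = 3 * t + 3 ∨ s.1 = 3 * t + 4)) : rk t s o ≤ 3 := by
  obtain ⟨-, -, -, -, -, L6, L7⟩ := o_bd h hc
  obtain ⟨hf1, hf2⟩ := R1_flags h
  obtain ⟨q, f⟩ := s
  obtain ⟨u, e⟩ := o
  unfold C1 at hc
  simp only at hc hs L6 L7 hf1 hf2
  have key : rkb (q, f) (u, e) ≤ 1 → rk t (q, f) (u, e) ≤ 3 := by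
    intro h; unfold rk; omega
  have key2 : rkb (q, f) (u, e) ≤ 2 → u < 3 * t + e → 3 * t + 3 + f ≤ q →
      rk t (q, f) (u, e) ≤ 3 := by
    intro h h' h''; unfold rk; simp only; omega
  obtain ⟨rfl, rfl | rfl⟩ := hs
  · rcases hf2 with rfl | rfl
    · rcases (by omega : u % 3 = 1 ∨ u % 3 = 2) with ru | ru
      · apply key
        rw [rkb_00, ru, show (3 * t + 3) % 3 = 0 by omega]
        decide
      · have := L6 rfl rfl rfl ru
        apply key2 _ (by omega) (by omega)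
        rw [rkb_00, ru, show (3 * t + 3) % 3 = 0 by omega]
        decide
    · apply key
      rw [rkb_01, show (3 * t + 3) % 3 = 0 by omega]
      decide
  · rcases hf2 with rfl | rfl
    · apply key
      rw [rkb_00, show (3 * t + 4) % 3 = 1 by omega]
      rcases (by omega : u % 3 = 0 ∨ u % 3 = 2) with ru | ru <;> rw [ru] <;> decide
    · have := L7 rfl rfl rfl
      apply key2 _ (by omega) (by omega)
      rw [rkb_01, show (3 * t + 4) % 3 = 1 by omega]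

end Pool.Agent.R154.Cookie
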