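import Pool.Agent.R154.CookieOrder

set_option autoImplicit false
set_option maxHeartbeats 4000000
set_option linter.unusedSimpArgs false
set_option linter.unusedTactic false
set_option linter.unreachableTactic false
set_option linter.style.multiGoal false

namespace Pool.Agent.R154.Cookie

lemma rk_gap {t : ℕ} {s z : ℕ × ℕ} (h : R1 (t + 1) s z) (hc : C1 s z) : rk t (stp (t + 2) s) (stp (t + 1) z) = G (t + 2) s (rk (t + 1) s z) := by
  obtain ⟨q, f⟩ := s
  obtain ⟨p, g⟩ := z
  obtain ⟨⟨h1, h2⟩, ⟨h3, h4⟩, h5⟩ := h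
  unfold C1 at hc
  simp only at h1 h2 h3 h4 h5 hc
  have ka := stp_cases (t + 2) q f
  have kb := stp_cases (t + 1) p g
  rcases h5 with c | c | c | c | c | c | c | c | c | c | c | c | c <;>
  rcases h2 with rfl | ⟨rfl, h2, h2'⟩ <;> rcases h4 with rfl | ⟨rfl, h4, h4'⟩ <;>
  simp only [val_zero, val_one, true_and, and_true, false_and, and_false, true_or, or_true,
      false_or, or_false, add_zero, one_ne_zero, zero_ne_one, not_true, not_false_iff, ne_eq, Nat.sub_zero, not_true_eq_false, rkb_00, rkb_01, rkb_1, rk] at c hc <;>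
  try (exfalso; omega)
  all_goals
  rcases ka with ⟨a1, a⟩ | ⟨a1, a2, a⟩ | ⟨a1, a2, a3, a⟩ | ⟨a1, a2, a⟩ | ⟨a1, a2, a⟩ <;>
  try (exfalso; omega)
  all_goals
  rcases kb with ⟨b1, b⟩ | ⟨b1, b2, b⟩ | ⟨b1, b2, b3, b⟩ | ⟨b1, b2, b⟩ | ⟨b1, b2, b⟩ <;>
  try (exfalso; omega)
  all_goals rw [a, b]
  all_goals clear a b
  all_goals
    (rcases (by omega : 2 * q ≤ 3 * t + 14 ∨ 2 * q = 3 * t + 15 ∨ 3 * t + 16 ≤ 2 * q) with e | e | e <;>
     rcases resq q (by omega) with ⟨rq, rq1⟩ | ⟨rq, rq1⟩ | ⟨rq, rq1⟩ <;>
     rcases resp p (by omega) with ⟨rp, rp1, rp2, rp3⟩ | ⟨rp, rp1, rp2, rp3⟩ | ⟨rp, rp1, rp2, rp3⟩ <;>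
     first
     | (exfalso; omega)
     | ((first
         | rw [rk_a (t := t + 1) (by simp only; omega)]
         | rw [rk_b (t := t + 1) (by simp only; omega) (by simp only; omega)])
        (first
         | rw [rk_a (t := t) (by simp only; omega)]
         | rw [rk_b (t := t) (by simp only; omega) (by simp only; omega)])
        simp only [rkb_00, rkb_01, rkb_1]
        try rw [mod3 (q := q) (by omega)]
        try rw [mod3 (q := p) (by omega)]
        try rw [mod3' (q := p) (by omega)]
        simp only [rq, rq1, rp, rp1, rp2, rp3]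
        first
        | (rw [G_mid (by omega) (by omega) (by omega)] <;> decide)
        | (rw [G_lo1 (by omega) (by omega) (by omega)] <;> decide)
        | (rw [G_lo2 (by omega) (by omega) (by omega)] <;> decide)
        | (rw [G_m1 (by omega) (by omega) (by omega)] <;> decide)
        | (rw [G_m0 (by omega) (by omega) (by omega)] <;> decide)
        | (rw [G_m9 (by omega) (by omega)] <;> decide)
        | (rw [G_h (by omega) (by omega) (by omega)] <;> decide)
        | (rw [G_fr (by omega) (Or.inr (by decide))] <;> decide)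
        | (rcases (by omega : t = 0 ∨ 1 ≤ t) with rt | rt
           · subst rt
             first
             | (exfalso; omega)
             | (rw [show 0 + 2 = 2 from rfl, G_two (by omega)] <;> decide)
           · first
             | (exfalso; omega)
             | (rw [G_fr (by omega) (Or.inl (by omega))] <;> decide))))

end Pool.Agent.R154.Cookie
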