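import Pool.Agent.R154.CookieOrder

set_option autoImplicit false
set_option maxHeartbeats 4000000
set_option linter.unusedSimpArgs false
set_option linter.unusedTactic false
set_option linter.unreachableTactic false
set_option linter.style.multiGoal false

namespace Pool.Agent.R154.Cookie

lemma rk_elem {t : ℕ} {s z : ℕ × ℕ} (h : R1 (t + 1) s z) (hc : C1 s z) : rk t s z = Ge (t + 2) s (rk (t + 1) s z) := by
  obtain ⟨q, f⟩ := s
  obtain ⟨p, g⟩ := z
  obtain ⟨⟨h1, h2⟩, ⟨h3, h4⟩, h5⟩ := h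
  unfold C1 at hc
  simp only at h1 h2 h3 h4 h5 hc
  rcases h5 with c | c | c | c | c | c | c | c | c | c | c | c | c <;>
  rcases h2 with rfl | ⟨rfl, h2, h2'⟩ <;> rcases h4 with rfl | ⟨rfl, h4, h4'⟩ <;>
  simp only [val_zero, val_one, true_and, and_true, false_and, and_false, true_or, or_true,
      false_or, or_false, add_zero, one_ne_zero, zero_ne_one, not_true, not_false_iff, ne_eq, Nat.sub_zero, not_true_eq_false, rkb_00, rkb_01, rkb_1, rk] at c hc <;>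
  try (exfalso; omega)
  all_goals
    (simp only [Ge, val_zero, val_one, true_and, and_true, false_and, and_false, true_or, or_true,
      false_or, or_false, add_zero, one_ne_zero, zero_ne_one, not_true, not_false_iff, ne_eq, Nat.sub_zero, not_true_eq_false, rkb_00, rkb_01, rkb_1, rk] <;> (split_ifs <;> first | contradiction | omega | (rcases (by omega : p % 6 = 0 ∨ p % 6 = 1 ∨ p % 6 = 2 ∨ p % 6 = 3 ∨ p % 6 = 4 ∨ p % 6 = 5) with rp | rp | rp | rp | rp | rp <;> first | omega | (rcases (by omega : q % 6 = 0 ∨ q % 6 = 1 ∨ q % 6 = 2 ∨ q % 6 = 3 ∨ q % 6 = 4 ∨ q % 6 = 5) with rq | rq | rq | rq | rq | rq <;> omega))))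

lemma z_lo {t : ℕ} {s z : ℕ × ℕ} (h : R0 (t + 1) s z) (hc : C0 s z) :
    (s.2 = 0 ∧ 2 * s.1 ≤ 3 * t + 7 ∧ s.1 % 3 ≠ 0) ∨
    (2 ≤ rk t s (stp (t + 1) z) ∧ ((s.2 = 1 ∧ 2 * s.1 = 3 * t + 9) ∨
      (s.2 = 0 ∧ s.1 % 3 = 1 ∧ (z.2 = 0 ∨ 2 * s.1 ≤ 3 * t + 8 ∨ (s.1 = 3 * t + 4 ∧ t = 0))) ∨
      (s.2 = 0 ∧ s.1 % 3 = 0 ∧ (2 * s.1 ≤ 3 * t + 7 ∨ (s.1 = 3 * t + 3 ∧ t = 0))))) ∨
    (3 ≤ rk t s (stp (t + 1) z) ∧ s.2 = 0 ∧ (s.1 = 3 * t + 3 ∨ s.1 = 3 * t + 4)) ∨
    4 ≤ rk t s (stp (t + 1) z) := by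
  obtain ⟨q, f⟩ := s
  obtain ⟨p, g⟩ := z
  obtain ⟨⟨h1, h2⟩, ⟨h3, h4⟩, h5⟩ := h
  unfold C0 at hc
  simp only at h1 h2 h3 h4 h5 hc ⊢
  by_cases h0 : f = 0 ∧ 2 * q ≤ 3 * t + 7 ∧ q % 3 ≠ 0
  · exact Or.inl h0
  right
  have hc' : Unit → _ := fun _ => hc
  clear hc
  have kd : Unit → _ := fun _ => stp_cases (t + 1) p g
  rcases h5 with c | c | c | c | c | c <;>
  rcases h2 with rfl | ⟨rfl, h2, h2'⟩ <;> (try (exfalso; omega)) <;>
  rcases h4 with rfl | ⟨rfl, h4, h4'⟩ <;> (try (exfalso; omega))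
  all_goals
  rcases kd () with ⟨d1, d⟩ | ⟨d1, d2, d⟩ | ⟨d1, d2, d3, d⟩ | ⟨d1, d2, d⟩ | ⟨d1, d2, d⟩ <;>
  (try (exfalso; omega))
  all_goals rw [d]
  all_goals clear d
  all_goals
    (rcases resq q (by omega) with ⟨rq, rq1⟩ | ⟨rq, rq1⟩ | ⟨rq, rq1⟩ <;>
     rcases resp p (by omega) with ⟨rp, rp1, rp2, rp3⟩ | ⟨rp, rp1, rp2, rp3⟩ | ⟨rp, rp1, rp2, rp3⟩ <;>
     rcases hc' () with hc | hc | hc <;>
     rcases (by omega : q < 3 * t + 3 ∨ q = 3 * t + 3 ∨ 3 * t + 4 ≤ q) with e | e | e <;>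
     first
     | (exfalso; omega)
     | ((first
         | rw [rk_a (t := t) (by simp only; omega)]
         | rw [rk_b (t := t) (by simp only; omega) (by simp only; omega)])
        simp only [rkb_00, rkb_01, rkb_1]
        try rw [mod3 (q := q) (by omega)]
        try rw [mod3 (q := p) (by omega)]
        try rw [mod3' (q := p) (by omega)]
        simp only [rq, rq1, rp, rp1, rp2, rp3, true_and, and_true, true_or, or_true, false_or,
          or_false, false_and, and_false, zero_ne_one, one_ne_zero]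
        first
        | (right; right; decide)
        | (right; left; exact ⟨by decide, by omega⟩)
        | (left; exact ⟨by decide, by omega⟩)
        | (left; decide)
        | omega))

lemma rk_new {t : ℕ} {s z o : ℕ × ℕ} (h : R0 (t + 1) s z) (hc : C0 s z) (h' : R1 (t + 1) s o)
    (hc' : C1 s o) (hr : R3 s o z) : rk t s o ≤ rk t s (stp (t + 1) z) := by
  rcases z_lo h hc with ⟨h1, h2, h3⟩ | ⟨h1, h2⟩ | ⟨h1, h2⟩ | h1
  · exact (rk_up0 h' hc' h1 h2 h3).trans (Nat.zero_le _)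
  · refine (rk_up2 h' hc' ?_).trans h1
    rcases h2 with h2 | ⟨h2, h3, h4⟩ | h2
    · exact Or.inl h2
    · refine Or.inr (Or.inl ⟨h2, h3, ?_⟩)
      rcases h4 with h4 | h4
      · left
        rcases (R1_flags h').2 with h5 | h5
        · exact h5
        · exact absurd ⟨h2, h3, h5, h4⟩ hr
      · exact Or.inr h4
    · exact Or.inr (Or.inr h2)
  · exact (rk_up3 h' hc' h2).trans h1
  · exact (rk_le (R1_flags h').1 (R1_flags h').2 hc').trans h1

end Pool.Agent.R154.Cookie
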