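import Pool.Agent.R154.CookieOrderB
import Pool.Agent.R154.CookieOrderC

set_option autoImplicit false

/-!
# The cookie game: the winning heaps of a position with distinct heaps form a block
-/

namespace Pool.Agent.R154.Cookie

/-- The state of the shifted position. -/
noncomputable def shf (P : ℕ → Prop) (k t : ℕ) : ℕ × ℕ := st (fun y => P (y + 1)) k t

/-- The state of the option that removes the heap `x`. -/
noncomputable def opt (P : ℕ → Prop) (x k t : ℕ) : ℕ × ℕ :=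
  st (fun y => P (y + 1) ∧ y + 1 ≠ x) k t

lemma shf_pos {P : ℕ → Prop} {k t : ℕ} (h : P (t + 1 + 1)) : shf P (k + 1) t = shf P k (t + 1) :=
  st_pos (P := fun y => P (y + 1)) h

lemma shf_neg {P : ℕ → Prop} {k t : ℕ} (h : ¬ P (t + 1 + 1)) :
    shf P (k + 1) t = stp (t + 1) (shf P k (t + 1)) :=
  st_neg (P := fun y => P (y + 1)) h

lemma opt_pos {P : ℕ → Prop} {x k t : ℕ} (h : P (t + 1 + 1)) (hx : x ≠ t + 1 + 1) :
    opt P x (k + 1) t = opt P x k (t + 1) :=
  st_pos (P := fun y => P (y + 1) ∧ y + 1 ≠ x) ⟨h, fun h => hx h.symm⟩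

lemma opt_neg {P : ℕ → Prop} {x k t : ℕ} (h : ¬ P (t + 1 + 1)) :
    opt P x (k + 1) t = stp (t + 1) (opt P x k (t + 1)) :=
  st_neg (P := fun y => P (y + 1) ∧ y + 1 ≠ x) fun h' => h h'.1

lemma opt_lt {P : ℕ → Prop} {x k t : ℕ} (h : x ≤ t + 1) : opt P x k t = shf P k t := by
  refine st_congr k t fun y hy => ?_
  constructor
  · exact fun h => h.1
  · exact fun h => ⟨h, by omega⟩

lemma opt_self {P : ℕ → Prop} {k t : ℕ} :
    opt P (t + 1 + 1) (k + 1) t = stp (t + 1) (shf P k (t + 1)) := by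
  rw [opt, st_neg (P := fun y => P (y + 1) ∧ y + 1 ≠ t + 1 + 1) fun h => h.2 rfl]
  congr 1
  exact opt_lt le_rfl

lemma R0_shf (P : ℕ → Prop) (k t : ℕ) : R0 t (st P k (t + 1)) (shf P k t) :=
  R0_st P _ k t fun _ _ => Iff.rfl

lemma R1_opt {P : ℕ → Prop} {x : ℕ} (hPx : P x) {k t : ℕ} (h1 : t + 1 < x) (h2 : x ≤ t + 1 + k) :
    R1 t (st P k (t + 1)) (opt P x k t) :=
  R1_st P _ x hPx k t h1 h2 fun _ _ => Iff.rfl

lemma C0_shf (P : ℕ → Prop) (k : ℕ) : ∀ t, C0 (st P k (t + 1)) (shf P k t) := by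
  induction k with
  | zero => intro t; exact C0_base t
  | succ k ih =>
    intro t
    by_cases hP : P (t + 1 + 1)
    · rw [st_pos hP, shf_pos hP]; exact ih (t + 1)
    · rw [st_neg hP, shf_neg hP]; exact C0_gap (R0_shf P k (t + 1)) (ih (t + 1))

lemma C1_opt {P : ℕ → Prop} {x : ℕ} (hPx : P x) (k : ℕ) : ∀ t, t + 1 < x → x ≤ t + 1 + k →
    C1 (st P k (t + 1)) (opt P x k t) := by
  induction k with
  | zero => intro t h1 h2; omega
  | succ k ih =>
    intro t h1 h2
    by_cases hx : x = t + 1 + 1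
    · subst hx
      rw [st_pos hPx, opt_self]
      exact C1_rem (R0_shf P k (t + 1)) (C0_shf P k (t + 1))
    · by_cases hP : P (t + 1 + 1)
      · rw [st_pos hP, opt_pos hP hx]; exact ih (t + 1) (by omega) (by omega)
      · rw [st_neg hP, opt_neg hP]
        exact C1_gap (R1_opt hPx (by omega) (by omega)) (ih (t + 1) (by omega) (by omega))

lemma R3_opt {P : ℕ → Prop} {x : ℕ} (hPx : P x) (k : ℕ) : ∀ t, t + 1 < x → x ≤ t + 1 + k →
    R3 (st P k (t + 1)) (opt P x k t) (shf P k t) := by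
  induction k with
  | zero => intro t h1 h2; omega
  | succ k ih =>
    intro t h1 h2
    by_cases hx : x = t + 1 + 1
    · subst hx
      rw [st_pos hPx, opt_self, shf_pos hPx]
      exact R3_new (R0_shf P k (t + 1)) (C0_shf P k (t + 1))
    · by_cases hP : P (t + 1 + 1)
      · rw [st_pos hP, opt_pos hP hx, shf_pos hP]; exact ih (t + 1) (by omega) (by omega)
      · rw [st_neg hP, opt_neg hP, shf_neg hP]
        exact R3_gap (R0_shf P k (t + 1)) (C0_shf P k (t + 1))
          (R1_opt hPx (by omega) (by omega)) (C1_opt hPx k (t + 1) (by omega) (by omega))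
          (ih (t + 1) (by omega) (by omega))

lemma rk_opt {P : ℕ → Prop} {x y : ℕ} (hPx : P x) (hPy : P y) (hxy : x < y) (k : ℕ) : ∀ t,
    t + 1 < x → y ≤ t + 1 + k →
    rk t (st P k (t + 1)) (opt P y k t) ≤ rk t (st P k (t + 1)) (opt P x k t) := by
  induction k with
  | zero => intro t h1 h2; omega
  | succ k ih =>
    intro t h1 h2
    have r1 := R1_opt hPy (k := k) (t := t + 1) (by omega) (by omega)
    have c1 := C1_opt hPy k (t + 1) (by omega) (by omega)
    by_cases hx : x = t + 1 + 1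
    · subst hx
      rw [st_pos hPx, opt_self, opt_pos hPx (by omega)]
      exact rk_new (R0_shf P k (t + 1)) (C0_shf P k (t + 1)) r1 c1
        (R3_opt hPy k (t + 1) (by omega) (by omega))
    · have r2 := R1_opt hPx (k := k) (t := t + 1) (by omega) (by omega)
      have c2 := C1_opt hPx k (t + 1) (by omega) (by omega)
      have h := ih (t + 1) (by omega) (by omega)
      by_cases hP : P (t + 1 + 1)
      · rw [st_pos hP, opt_pos hP hx, opt_pos hP (by omega), rk_elem r1 c1, rk_elem r2 c2]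
        exact Ge_mono h (rk_le (R1_flags r2).1 (R1_flags r2).2 c2)
      · rw [st_neg hP, opt_neg hP, opt_neg hP, rk_gap r1 c1, rk_gap r2 c2]
        exact G_mono h

lemma opt_final {P : ℕ → Prop} {x y k : ℕ} (hPx : P x) (hPy : P y) (hx : 0 < x) (hxy : x < y)
    (hy : y ≤ k + 1) : rkb (st P k 1) (opt P y k 0) ≤ rkb (st P k 1) (opt P x k 0) := by
  have r1 := R1_opt hPy (k := k) (t := 0) (by omega) (by omega)
  have c1 := C1_opt hPy k 0 (by omega) (by omega)
  by_cases hx1 : x = 1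
  · subst hx1
    rw [opt_lt (x := 1) (t := 0) le_rfl]
    exact rk_fin (R0_shf P k 0) (C0_shf P k 0) r1 c1 (R3_opt hPy k 0 (by omega) (by omega))
  · have r2 := R1_opt hPx (k := k) (t := 0) (by omega) (by omega)
    have h := rk_opt hPx hPy hxy k 0 (by omega) (by omega)
    rw [rk_zero r1, rk_zero r2] at h
    simp only [Nat.zero_add] at h
    omega

lemma C1_opt' {P : ℕ → Prop} {x k : ℕ} (hPx : P x) (hx : 0 < x) (hk : x ≤ k + 1) :
    C1 (st P k 1) (opt P x k 0) ∧ ((st P k 1).2 = 0 ∨ (st P k 1).2 = 1) ∧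
      ((opt P x k 0).2 = 0 ∨ (opt P x k 0).2 = 1) := by
  by_cases hx1 : x = 1
  · subst hx1
    rw [opt_lt (x := 1) (t := 0) le_rfl]
    obtain ⟨⟨-, h1⟩, ⟨-, h2⟩, -⟩ := R0_shf P k 0
    have h1' : (st P k 1).2 = 0 ∨ (st P k 1).2 = 1 := h1.imp id fun h => h.1
    have h2' : (shf P k 0).2 = 0 ∨ (shf P k 0).2 = 1 := h2.imp id fun h => h.1
    exact ⟨C1_of_C0 h2' (C0_shf P k 0), h1', h2'⟩
  · exact ⟨C1_opt hPx k 0 (by omega) (by omega), R1_flags (R1_opt hPx (by omega) (by omega))⟩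

lemma zero_mid {s a b c : ℕ × ℕ} (hs : s.2 = 0 ∨ s.2 = 1) (ha : a.2 = 0 ∨ a.2 = 1)
    (hb : b.2 = 0 ∨ b.2 = 1) (hc : c.2 = 0 ∨ c.2 = 1) (ca : C1 s a) (cb : C1 s b) (cc : C1 s c)
    (hab : rkb s b ≤ rkb s a) (hbc : rkb s c ≤ rkb s b) (za : val a = 0) (zc : val c = 0) :
    val b = 0 := by
  obtain ⟨q, f⟩ := s
  obtain ⟨a, g⟩ := a
  obtain ⟨b, e⟩ := b
  obtain ⟨c, d⟩ := c
  have v0 : ∀ {x h : ℕ}, (h = 0 ∨ h = 1) → val (x, h) = 0 → h = 0 ∧ x % 3 = 0 := by
    intro x h hh hv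
    rcases hh with rfl | rfl
    · rw [val_zero] at hv; exact ⟨rfl, by omega⟩
    · rw [val_one] at hv; omega
  have v1 : ∀ {x : ℕ}, x % 3 = 0 → val (x, 0) = 0 := by
    intro x h; rw [val_zero]; omega
  simp only at hs ha hb hc
  obtain ⟨rfl, ra⟩ := v0 ha za
  obtain ⟨rfl, rc⟩ := v0 hc zc
  unfold C1 at ca cb
  simp only at ca cb
  rcases hs with rfl | rfl
  · rcases hb with rfl | rfl
    · rw [rkb_00, rkb_00] at hab
      rw [rkb_00, rkb_00] at hbc
      rw [ra] at hab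
      rw [rc] at hbc
      apply v1
      rcases (by omega : q % 3 = 1 ∨ q % 3 = 2) with rq | rq <;> rw [rq] at hab hbc <;> omega
    · rw [rkb_01, rkb_00, ra] at hab
      rw [rkb_00, rkb_01, rc] at hbc
      rcases (by omega : q % 3 = 1 ∨ q % 3 = 2) with rq | rq <;> rw [rq] at hab hbc <;> omega
  · have e0 : e = 0 := by omega
    subst e0
    apply v1
    rw [rkb_1, rkb_1] at hab hbc
    omega

/-- Among the heaps of a position without repeated heaps, the winning ones form a block. -/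
theorem val_mid {P : ℕ → Prop} {a b c k : ℕ} (hPa : P a) (hPb : P b) (hPc : P c) (ha : 0 < a)
    (hab : a < b) (hbc : b < c) (hc : c ≤ k + 1) (za : val (opt P a k 0) = 0)
    (zc : val (opt P c k 0) = 0) : val (opt P b k 0) = 0 := by
  obtain ⟨ca, hs, fa⟩ := C1_opt' (k := k) hPa ha (by omega)
  obtain ⟨cb, -, fb⟩ := C1_opt' (k := k) hPb (by omega) (by omega)
  obtain ⟨cc, -, fc⟩ := C1_opt' (k := k) hPc (by omega) (by omega)
  exact zero_mid hs fa fb fc ca cb cc (opt_final hPa hPb ha hab (by omega))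
    (opt_final hPb hPc (by omega) hbc hc) za zc

end Pool.Agent.R154.Cookie
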