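import Pool.Agent.R154.CookieMex

set_option autoImplicit false

namespace Pool.Agent.R154.Cookie

open Classical in
/-- The state at level `t`, read from the sizes `t + 1, …, t + k`. -/
noncomputable def st (P : ℕ → Prop) : ℕ → ℕ → ℕ × ℕ
  | 0, t => (t, 0)
  | k + 1, t => if P (t + 1) then st P k (t + 1) else stp (t + 1) (st P k (t + 1))

lemma st_pos {P : ℕ → Prop} {k t : ℕ} (h : P (t + 1)) : st P (k + 1) t = st P k (t + 1) := by
  rw [st, if_pos h]

lemma st_neg {P : ℕ → Prop} {k t : ℕ} (h : ¬ P (t + 1)) :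
    st P (k + 1) t = stp (t + 1) (st P k (t + 1)) := by
  rw [st, if_neg h]

lemma st_congr {P Q : ℕ → Prop} (k : ℕ) : ∀ t, (∀ y, t < y → (P y ↔ Q y)) → st P k t = st Q k t := by
  induction k with
  | zero => intro t _; rfl
  | succ k ih =>
    intro t h
    have h1 := ih (t + 1) fun y hy => h y (by omega)
    by_cases hP : P (t + 1)
    · rw [st_pos hP, st_pos ((h _ (by omega)).mp hP), h1]
    · rw [st_neg hP, st_neg (fun hQ => hP ((h _ (by omega)).mpr hQ)), h1]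

lemma R0_st (P Q : ℕ → Prop) (k : ℕ) : ∀ t, (∀ y, t < y → (Q y ↔ P (y + 1))) →
    R0 t (st P k (t + 1)) (st Q k t) := by
  induction k with
  | zero => intro t _; exact R0_base t
  | succ k ih =>
    intro t h
    have h1 := ih (t + 1) fun y hy => h y (by omega)
    by_cases hP : P (t + 1 + 1)
    · rw [st_pos hP, st_pos ((h _ (by omega)).mpr hP)]
      exact R0_elem h1
    · rw [st_neg hP, st_neg (fun hQ => hP ((h _ (by omega)).mp hQ))]
      exact R0_gap h1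

lemma R1_st (P Q : ℕ → Prop) (x : ℕ) (hPx : P x) (k : ℕ) : ∀ t, t + 1 < x → x ≤ t + 1 + k →
    (∀ y, t < y → (Q y ↔ P (y + 1) ∧ y + 1 ≠ x)) → R1 t (st P k (t + 1)) (st Q k t) := by
  induction k with
  | zero => intro t h1 h2 _; omega
  | succ k ih =>
    intro t h1 h2 h
    by_cases hx : x = t + 1 + 1
    · have h3 := R0_st P Q k (t + 1) (fun y hy => by
        rw [h y (by omega)]
        constructor
        · exact fun h => h.1
        · exact fun h => ⟨h, by omega⟩)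
      rw [st_pos (by rw [← hx]; exact hPx), st_neg (fun hQ => ((h _ (by omega)).mp hQ).2 hx.symm)]
      exact R0_rem h3
    · have h3 := ih (t + 1) (by omega) (by omega) fun y hy => h y (by omega)
      by_cases hP : P (t + 1 + 1)
      · rw [st_pos hP, st_pos ((h _ (by omega)).mpr ⟨hP, fun h => hx h.symm⟩)]
        exact R1_elem h3
      · rw [st_neg hP, st_neg (fun hQ => hP ((h _ (by omega)).mp hQ).1)]
        exact R1_gap h3

/-- The states of the options that remove a heap larger than `t + 1`. -/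
def Opt (P : ℕ → Prop) (k t : ℕ) (w : ℕ × ℕ) : Prop :=
  ∃ x, t + 1 < x ∧ x ≤ t + 1 + k ∧ P x ∧ w = st (fun y => P (y + 1) ∧ y + 1 ≠ x) k t

lemma Fr_mono {t v : ℕ} {O O' : ℕ × ℕ → Prop} (h : ∀ w, O w → O' w) (hF : Fr t v O) :
    Fr t v O' := by
  obtain ⟨z, h1, h2⟩ := hF
  exact ⟨z, h z h1, h2⟩

lemma Ex_mono {t : ℕ} {s : ℕ × ℕ} {O O' : ℕ × ℕ → Prop} (h : ∀ w, O w → O' w) (hE : Ex t s O) :
    Ex t s O' := by
  obtain ⟨e1, e2, e3⟩ := hE
  refine ⟨fun h1 v hv => Fr_mono h (e1 h1 v hv), fun h1 h2 h3 => ?_, fun h1 h2 => ?_⟩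
  · obtain ⟨c0, c1, c2, c3⟩ := e2 h1 h2 h3
    refine ⟨fun h4 h5 => h _ (c0 h4 h5), fun h4 h5 => (c1 h4 h5).imp (h _) (h _),
      fun h4 h5 => h _ (c2 h4 h5), fun h4 h5 => ?_⟩
    obtain ⟨d1, d2⟩ := c3 h4 h5
    exact ⟨h _ d1, d2.imp (h _) (fun d => ⟨d.1, Fr_mono h d.2⟩)⟩
  · obtain ⟨c0, c1⟩ := e3 h1 h2
    exact ⟨c0.imp (h _) (fun d => ⟨d.1, Fr_mono h d.2⟩), fun h4 => h _ (c1 h4)⟩

lemma Ex_st (P : ℕ → Prop) (k : ℕ) : ∀ t, Ex t (st P k (t + 1)) (Opt P k t) := by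
  induction k with
  | zero =>
    intro t
    refine ⟨fun h => ?_, fun _ h2 _ => ?_, fun h1 _ => ?_⟩
    · simp only [st] at h; omega
    · simp only [st] at h2; omega
    · simp only [st] at h1; omega
  | succ k ih =>
    intro t
    have h0 := ih (t + 1)
    have hR := R0_st P (fun y => P (y + 1)) k (t + 1) (fun y _ => Iff.rfl)
    by_cases hP : P (t + 1 + 1)
    · rw [st_pos hP]
      refine Ex_mono ?_ (Ex_elem hR h0)
      rintro w (⟨x, h1, h2, h3, rfl⟩ | rfl)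
      · refine ⟨x, by omega, by omega, h3, ?_⟩
        rw [st_pos (P := fun y => P (y + 1) ∧ y + 1 ≠ x) ⟨hP, by omega⟩]
      · refine ⟨t + 1 + 1, by omega, by omega, hP, ?_⟩
        rw [st_neg (P := fun y => P (y + 1) ∧ y + 1 ≠ t + 1 + 1) (fun h => h.2 rfl)]
        congr 1
        refine st_congr k (t + 1) fun y hy => ?_
        constructor
        · exact fun h => ⟨h, by omega⟩
        · exact fun h => h.1
    · rw [st_neg hP]
      refine Ex_mono ?_ (Ex_gap hR.1 h0)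
      rintro w ⟨u, ⟨x, h1, h2, h3, rfl⟩, rfl⟩
      refine ⟨x, by omega, by omega, h3, ?_⟩
      rw [st_neg (P := fun y => P (y + 1) ∧ y + 1 ≠ x) (fun h => hP h.1)]

lemma R0_final {s z : ℕ × ℕ} (h : R0 0 s z) : val s ≠ val z := by
  obtain ⟨q, f⟩ := s
  obtain ⟨p, g⟩ := z
  obtain ⟨⟨h1, h2⟩, ⟨h3, h4⟩, h5⟩ := h
  simp only at h1 h2 h3 h4 h5
  rcases h5 with c | c | c | c | c | c
  · omega
  · omega
  · obtain ⟨-, rfl, rfl, h⟩ := c; rw [h]; decide
  · obtain ⟨-, rfl, rfl, h⟩ := c; rw [h]; decide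
  · obtain ⟨-, rfl, rfl, h⟩ := c; rw [h]; decide
  · exact c.2.2

lemma R1_final {s z : ℕ × ℕ} (h : R1 0 s z) : val s ≠ val z ∧ val (stp 1 s) ≠ val z := by
  obtain ⟨q, f⟩ := s
  obtain ⟨p, g⟩ := z
  obtain ⟨⟨h1, h2⟩, ⟨h3, h4⟩, h5⟩ := h
  simp only at h1 h2 h3 h4 h5
  rcases h5 with c | c | c | c | c | c | c | c | c | c | c | c | c
  · omega
  · omega
  · omega
  · omega
  · omega
  · omega
  · omega
  · omega
  · obtain ⟨-, rfl, rfl, h⟩ := c; rw [h]; decide
  · obtain ⟨-, rfl, rfl, h⟩ := c; rw [h]; decide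
  · omega
  · omega
  · rw [stp_fr (by simp only; omega)]
    exact ⟨c.2.2, c.2.2⟩

lemma Ex_final_gap {s : ℕ × ℕ} {O : ℕ × ℕ → Prop} (hW : W 1 s) (h : Ex 0 s O) :
    ∀ v < val (stp 1 s), ∃ w, O w ∧ val w = v := by
  obtain ⟨q, f⟩ := s
  obtain ⟨h1, h2⟩ := hW
  obtain ⟨e1, e2, e3⟩ := h
  simp only at h1 h2 e1 e2 e3
  intro v hv
  by_cases hfr : 3 + f ≤ q
  · rw [stp_fr (by simp only; omega)] at hv
    obtain ⟨w, h3, -, h4⟩ := e1 (by omega) v hv
    exact ⟨w, h3, h4⟩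
  rcases h2 with rfl | ⟨rfl, h2, h2'⟩
  · rcases (by omega : q = 1 ∨ q = 2) with rfl | rfl
    · have : val (stp 1 (1, 0)) = 0 := by decide
      omega
    · have : val (stp 1 (2, 0)) = 1 := by decide
      obtain rfl : v = 0 := by omega
      exact ⟨_, (e2 rfl (by omega) (by omega)).1 (by omega) (by omega), by decide⟩
  · obtain rfl : q = 3 := by omega
    have : val (stp 1 (3, 1)) = 0 := by decide
    omega

lemma Ex_final_elem {s z : ℕ × ℕ} {O : ℕ × ℕ → Prop} (hR : R0 0 s z) (h : Ex 0 s O) :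
    ∀ v < val s, (∃ w, O w ∧ val w = v) ∨ val z = v := by
  obtain ⟨q, f⟩ := s
  obtain ⟨p, g⟩ := z
  obtain ⟨⟨h1, h2⟩, ⟨h3, h4⟩, h5⟩ := hR
  obtain ⟨e1, e2, e3⟩ := h
  simp only at h1 h2 h3 h4 h5 e1 e2 e3
  intro v hv
  by_cases hfr : 3 + f ≤ q
  · obtain ⟨w, h6, -, h7⟩ := e1 (by omega) v hv
    exact Or.inl ⟨w, h6, h7⟩
  rcases h5 with c | c | c | c | c | c
  · omega
  · omega
  · obtain ⟨-, rfl, rfl, h⟩ := c
    have : val (3 * 0 + 2, 0) = 2 := by decide
    rcases (by omega : v = 0 ∨ v = 1) with rfl | rfl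
    · exact Or.inl ⟨_, (e2 rfl (by omega) (by omega)).1 (by omega) (by omega), by decide⟩
    · exact Or.inr h
  · obtain ⟨-, rfl, rfl, h⟩ := c
    have : val (3 * 0 + 1, 0) = 1 := by decide
    obtain rfl : v = 0 := by omega
    exact Or.inr h
  · obtain ⟨-, rfl, rfl, h⟩ := c
    have : val (3 * 0 + 3, 1) = 2 := by decide
    rcases (by omega : v = 0 ∨ v = 1) with rfl | rfl
    · exact Or.inr h
    · rcases (e3 rfl (by omega)).1 with h6 | ⟨-, w, h6, -, h7⟩
      · exact Or.inl ⟨_, h6, by decide⟩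
      · exact Or.inl ⟨w, h6, h7⟩
  · omega

lemma st_full {P : ℕ → Prop} (k : ℕ) : ∀ t, (∀ y, t < y → y ≤ t + k → P y) →
    st P k t = (t + k, 0) := by
  induction k with
  | zero => intro t _; rfl
  | succ k ih =>
    intro t h
    rw [st_pos (h _ (by omega) (by omega)), ih (t + 1) fun y h1 h2 => h y (by omega) (by omega)]
    exact Prod.ext (by simp only; omega) rfl

lemma st_down {P : ℕ → Prop} (j : ℕ) : ∀ k t,
    3 * (t + j) + (st P k (t + j)).2 ≤ (st P k (t + j)).1 → st P (k + j) t = st P k (t + j) := by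
  induction j with
  | zero => intro k t _; rfl
  | succ j ih =>
    intro k t h
    have e : t + (j + 1) = t + 1 + j := by omega
    rw [e] at h ⊢
    have h1 := ih k (t + 1) h
    by_cases hP : P (t + 1)
    · rw [← Nat.add_assoc, st_pos hP, h1]
    · rw [← Nat.add_assoc, st_neg hP, h1, stp_fr (by omega)]

end Pool.Agent.R154.Cookie
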